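import Pool.Agent.R345.IXNum
import Pool.Agent.H38R2.CG.N2

/-!
# Arbitrary sets of small prime ideals: the number of classes of their products
-/

set_option autoImplicit false

namespace Pool.Agent.W24.NC

open Finset Filter NumberField Pool.Agent.H38R2.CG Pool.Agent.H38R2.CG3
open scoped Classical

/-- Products of `k` ideals of prime norm, one for each prime of a set `P ⊆ Q`. -/
theorem classes (hN0 : P_N0) (hN1 : P_N1) (hN3 : P_N3) (h4 : P_N4) (hKF : P_KF)
    (h5b : P_N5b) (hN6 : P_N6) (K : Type) [Field K] [NumberField K] (D : ℕ)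
    (hD : IsFund D) (h2 : Module.finrank ℚ K = 2) (hK : NumberField.discr K = (D : ℤ))
    (Q P : Finset ℕ) (hQ : ∀ p ∈ Q, p.Prime ∧ p ≠ 2) (hPQ : P ⊆ Q) (k : ℕ)
    (I : ℕ → nonZeroDivisors (Ideal (𝓞 K)))
    (hI : ∀ p ∈ P, Ideal.absNorm (I p : Ideal (𝓞 K)) = p)
    (T : Set (ClassGroup (𝓞 K)))
    (hT : ∀ s ∈ P.powersetCard k, ClassGroup.mk0 (∏ p ∈ s, I p) ∈ T) :
    (Nat.card (ClassGroup (𝓞 K)) : ℝ) * (P.card.choose k : ℝ) ^ 2 ≤
      (T.ncard : ℝ) * (2 * √(D : ℝ) * Lone D * SD D (Q.powersetCard k) (fun _ => 1)) := by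
  set S := Q.powersetCard k with hS
  set S' := P.powersetCard k with hS'
  have hf : ∀ s ∈ S, (0 : ℝ) ≤ (fun _ : Finset ℕ => (1 : ℝ)) s ∧ ∀ p ∈ s, p.Prime ∧ p ≠ 2 := by
    intro s hs
    refine ⟨zero_le_one, fun p hp => ?_⟩
    exact hQ p ((mem_powersetCard.1 hs).1 hp)
  obtain ⟨hA, -⟩ := nf_classes hN0 hN1 hN3 h4 hKF h5b hN6 K D hD h2 hK S (fun _ => 1) hf
  set cn : ClassGroup (𝓞 K) → ℕ := fun C =>
    (S'.filter (fun s => ClassGroup.mk0 (∏ p ∈ s, I p) = C)).card with hcn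
  have hcnle : ∀ C, (cn C : ℝ) ≤ MC K S (fun _ => 1) C := by
    intro C
    unfold MC
    have h1 : (cn C : ℝ) = ∑ s ∈ S', if ClassGroup.mk0 (∏ p ∈ s, I p) = C then (1 : ℝ) else 0 := by
      rw [hcn]
      simp only [Finset.sum_boole]
    rw [h1]
    have hsub : S' ⊆ S := Finset.powersetCard_mono hPQ
    refine le_trans (Finset.sum_le_sum ?_) (Finset.sum_le_sum_of_subset_of_nonneg hsub ?_)
    · intro s hs
      obtain ⟨hs1, hs2⟩ := Finset.mem_powersetCard.1 hs
      split_ifs with hC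
      · rw [one_mul]
        have hfin : Finite {J : nonZeroDivisors (Ideal (𝓞 K)) //
            Ideal.absNorm (J : Ideal (𝓞 K)) = prodS s ∧ ClassGroup.mk0 J = C} := by
          have h3 : {J : nonZeroDivisors (Ideal (𝓞 K)) |
            Ideal.absNorm (J : Ideal (𝓞 K)) ≤ prodS s}.Finite :=
            Ideal.finite_setOfPred_absNorm_le₀ (S := 𝓞 K) (prodS s)
          exact (h3.subset fun J hJ => hJ.1.le :
            {J : nonZeroDivisors (Ideal (𝓞 K)) |
              Ideal.absNorm (J : Ideal (𝓞 K)) = prodS s ∧ ClassGroup.mk0 J = C}.Finite).to_subtype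
        have hne : Nonempty {J : nonZeroDivisors (Ideal (𝓞 K)) //
            Ideal.absNorm (J : Ideal (𝓞 K)) = prodS s ∧ ClassGroup.mk0 J = C} := by
          refine ⟨⟨∏ p ∈ s, I p, ?_, hC⟩⟩
          rw [Submonoid.coe_finsetProd, map_prod]
          unfold prodS
          exact Finset.prod_congr rfl fun p hp => hI p (hs1 hp)
        have : 0 < Nat.card {J : nonZeroDivisors (Ideal (𝓞 K)) //
            Ideal.absNorm (J : Ideal (𝓞 K)) = prodS s ∧ ClassGroup.mk0 J = C} := Nat.card_pos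
        exact_mod_cast this
      · positivity
    · intro s _ _
      positivity
  have hTfin : T.Finite := Set.toFinite _
  set TF : Finset (ClassGroup (𝓞 K)) := hTfin.toFinset with hTF
  have hsum : (P.card.choose k : ℝ) = ∑ C ∈ TF, (cn C : ℝ) := by
    have h1 : S'.card = ∑ C ∈ TF, cn C := by
      apply Finset.card_eq_sum_card_fiberwise
      intro s hs
      rw [hTF, Finset.mem_coe, Set.Finite.mem_toFinset]
      exact hT s hs
    rw [← Finset.card_powersetCard, ← hS', h1]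
    push_cast
    rfl
  have hCS : (P.card.choose k : ℝ) ^ 2 ≤ (T.ncard : ℝ) *
      ∑ C : ClassGroup (𝓞 K), (MC K S (fun _ => 1) C) ^ 2 := by
    rw [hsum]
    refine (sq_sum_le_card_mul_sum_sq (s := TF) (f := fun C => (cn C : ℝ))).trans ?_
    have hc : (TF.card : ℝ) = T.ncard := by
      rw [hTF, Set.ncard_eq_toFinset_card _ hTfin]
    rw [hc]
    refine mul_le_mul_of_nonneg_left ?_ (Nat.cast_nonneg _)
    calc ∑ C ∈ TF, (cn C : ℝ) ^ 2 ≤ ∑ C : ClassGroup (𝓞 K), (cn C : ℝ) ^ 2 :=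
          Finset.sum_le_sum_of_subset_of_nonneg (Finset.subset_univ _) fun C _ _ => sq_nonneg _
      _ ≤ _ := Finset.sum_le_sum fun C _ => pow_le_pow_left₀ (Nat.cast_nonneg _) (hcnle C) 2
  have hh : (0 : ℝ) ≤ Nat.card (ClassGroup (𝓞 K)) := Nat.cast_nonneg _
  calc (Nat.card (ClassGroup (𝓞 K)) : ℝ) * (P.card.choose k : ℝ) ^ 2
      ≤ (Nat.card (ClassGroup (𝓞 K)) : ℝ) * ((T.ncard : ℝ) *
        ∑ C : ClassGroup (𝓞 K), (MC K S (fun _ => 1) C) ^ 2) :=
        mul_le_mul_of_nonneg_left hCS hh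
    _ = (T.ncard : ℝ) * ((Nat.card (ClassGroup (𝓞 K)) : ℝ) *
        ∑ C : ClassGroup (𝓞 K), (MC K S (fun _ => 1) C) ^ 2) := by ring
    _ ≤ _ := mul_le_mul_of_nonneg_left hA (Nat.cast_nonneg _)

/-- the norm of a prime ideal of a quadratic field -/
theorem norm_prime (K : Type) [Field K] [NumberField K] (h2 : Module.finrank ℚ K = 2)
    (J : Ideal (𝓞 K)) (hJ : J.IsPrime) (hJ0 : J ≠ ⊥) :
    ∃ p : ℕ, p.Prime ∧ (Ideal.absNorm J = p ∨ Ideal.absNorm J = p ^ 2) := by
  have hn0 : Ideal.absNorm J ≠ 0 := by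
    rw [Ne, Ideal.absNorm_eq_zero_iff]
    exact hJ0
  have hn1 : Ideal.absNorm J ≠ 1 := by
    rw [Ne, Ideal.absNorm_eq_one_iff]
    exact hJ.ne_top
  have hmem : ((Ideal.absNorm J : ℕ) : 𝓞 K) ∈ J := Ideal.absNorm_mem J
  obtain ⟨p, hp, hpJ⟩ : ∃ p : ℕ, p.Prime ∧ ((p : ℕ) : 𝓞 K) ∈ J := by
    rw [← Nat.prod_primeFactorsList hn0, Nat.cast_list_prod, ← Multiset.prod_coe] at hmem
    obtain ⟨x, hx, hxJ⟩ := (hJ.multiset_prod_mem_iff_exists_mem _).1 hmem
    rw [Multiset.mem_coe] at hx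
    obtain ⟨p, hp, rfl⟩ := List.mem_map.1 hx
    exact ⟨p, Nat.prime_of_mem_primeFactorsList hp, hxJ⟩
  have hdvd : Ideal.absNorm J ∣ p ^ 2 := by
    have h1 : J ∣ Ideal.span {((p : ℕ) : 𝓞 K)} := by
      rw [Ideal.dvd_span_singleton]
      exact hpJ
    have h3 := map_dvd Ideal.absNorm h1
    rw [Ideal.absNorm_span_singleton] at h3
    have h4 : Algebra.norm ℤ ((p : ℕ) : 𝓞 K) = (p : ℤ) ^ 2 := by
      rw [Algebra.norm_natCast, RingOfIntegers.rank, h2]
    rw [h4] at h3
    simpa [Int.natAbs_pow] using h3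
  rw [Nat.dvd_prime_pow hp] at hdvd
  obtain ⟨j, hj, hj'⟩ := hdvd
  refine ⟨p, hp, ?_⟩
  interval_cases j
  · exact absurd hj' (by simpa using hn1)
  · left; simpa using hj'
  · right; exact hj'

/-- the odd primes that are norms of members of a set of prime ideals -/
theorem below (hN2 : P_N2) (K : Type) [Field K] [NumberField K] (D : ℕ) (hD : IsFund D)
    (h2 : Module.finrank ℚ K = 2) (hK : NumberField.discr K = (D : ℤ))
    (W : Set (nonZeroDivisors (Ideal (𝓞 K)))) (B : ℝ)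
    (hW : ∀ J ∈ W, (J : Ideal (𝓞 K)).IsPrime ∧ ((Ideal.absNorm (J : Ideal (𝓞 K)) : ℕ) : ℝ) ≤ B) :
    ∃ P : Finset ℕ, (∀ p ∈ P, p.Prime ∧ p ≠ 2 ∧ (p : ℝ) ≤ B ∧
      ∃ J ∈ W, Ideal.absNorm (J : Ideal (𝓞 K)) = p) ∧
      (W.ncard : ℝ) ≤ 3 * (P.card + 1 + √B) := by
  have hWfin : W.Finite := by
    have h3 : {J : nonZeroDivisors (Ideal (𝓞 K)) |
        Ideal.absNorm (J : Ideal (𝓞 K)) ≤ ⌊B⌋₊}.Finite :=
      Ideal.finite_setOfPred_absNorm_le₀ (S := 𝓞 K) ⌊B⌋₊
    refine h3.subset fun J hJ => ?_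
    exact Nat.le_floor (hW J hJ).2
  set F : Finset (nonZeroDivisors (Ideal (𝓞 K))) := hWfin.toFinset with hF
  have hFmem : ∀ J, J ∈ F ↔ J ∈ W := fun J => Set.Finite.mem_toFinset _
  set f : nonZeroDivisors (Ideal (𝓞 K)) → ℕ := fun J => Ideal.absNorm (J : Ideal (𝓞 K)) with hf
  have hnorm : ∀ n ∈ F.image f, ∃ p : ℕ, p.Prime ∧ (n = p ∨ n = p ^ 2) := by
    intro n hn
    obtain ⟨J, hJ, rfl⟩ := Finset.mem_image.1 hn
    obtain ⟨p, hp, h⟩ := norm_prime K h2 J (hW J ((hFmem J).1 hJ)).1 (nonZeroDivisors.coe_ne_zero J)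
    exact ⟨p, hp, h⟩
  have hfib : ∀ n ∈ F.image f, (F.filter (fun J => f J = n)).card ≤ 3 := by
    intro n hn
    obtain ⟨p, hp, hnp⟩ := hnorm n hn
    have hn1 : 1 ≤ n := by
      rcases hnp with rfl | rfl
      · exact hp.one_lt.le
      · exact Nat.one_le_iff_ne_zero.2 (pow_ne_zero _ hp.pos.ne')
    have h3 := hN2 K D hD h2 hK n hn1
    have hdiv : n.divisors.card ≤ 3 := by
      rcases hnp with rfl | rfl
      · rw [hp.divisors, Finset.card_pair hp.one_lt.ne]
        norm_num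
      · rw [Nat.divisors_prime_pow hp, Finset.card_map, Finset.card_range]
    have h4 : (Nat.card {I : Ideal (𝓞 K) // Ideal.absNorm I = n} : ℤ) ≤ 3 := by
      rw [h3]
      calc ∑ m ∈ n.divisors, chi D m ≤ ∑ m ∈ n.divisors, (1 : ℤ) := by
            refine Finset.sum_le_sum fun m hm => ?_
            have h6 := jacobiSym.trichotomy (D : ℤ) (m / 2 ^ padicValNat 2 m)
            have hm0 : m ≠ 0 := (Nat.pos_of_mem_divisors hm).ne'
            unfold chi chi2
            split_ifs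
            · rcases h6 with h6 | h6 | h6 <;> rw [h6] <;> norm_num
            · rcases neg_one_pow_eq_or ℤ (padicValNat 2 m) with h7 | h7
              · rw [h7]
                rcases h6 with h6 | h6 | h6 <;> rw [h6] <;> norm_num
              · rw [h7]
                rcases h6 with h6 | h6 | h6 <;> rw [h6] <;> norm_num
            · rcases Nat.eq_zero_or_pos (padicValNat 2 m) with h7 | h7
              · rw [h7] at h6 ⊢
                rcases h6 with h6 | h6 | h6 <;> rw [h6] <;> norm_num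
              · rw [zero_pow h7.ne']
                norm_num
        _ = n.divisors.card := by simp
        _ ≤ 3 := by exact_mod_cast hdiv
    have hfin : Finite {I : Ideal (𝓞 K) // Ideal.absNorm I = n} :=
      (Ideal.finite_setOfPred_absNorm_eq (S := 𝓞 K) n).to_subtype
    have h5 : (F.filter (fun J => f J = n)).card ≤ Nat.card {I : Ideal (𝓞 K) // Ideal.absNorm I = n} := by
      rw [← Nat.card_eq_finsetCard]
      refine Nat.card_le_card_of_injective
        (fun J => (⟨(J.1 : Ideal (𝓞 K)), (Finset.mem_filter.1 J.2).2⟩ :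
          {I : Ideal (𝓞 K) // Ideal.absNorm I = n})) ?_
      intro J J' h
      have := congrArg Subtype.val h
      exact Subtype.ext (Subtype.ext this)
    have h6 : ((F.filter (fun J => f J = n)).card : ℤ) ≤ 3 := le_trans (by exact_mod_cast h5) h4
    exact_mod_cast h6
  have hcard := Finset.card_le_mul_card_image (s := F) (f := f) 3 hfib
  refine ⟨(F.image f).filter (fun p => p.Prime ∧ p ≠ 2), ?_, ?_⟩
  · intro p hp
    obtain ⟨hp1, hp2, hp3⟩ := Finset.mem_filter.1 hp
    obtain ⟨J, hJ, hJp⟩ := Finset.mem_image.1 hp1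
    have hJW := (hFmem J).1 hJ
    refine ⟨hp2, hp3, ?_, J, hJW, hJp⟩
    have := (hW J hJW).2
    rw [← hJp]
    exact this
  · set P := (F.image f).filter (fun p => p.Prime ∧ p ≠ 2) with hP
    have hsub : F.image f ⊆ P ∪ ({2} ∪ (Finset.Icc 1 ⌊√B⌋₊).image (fun p => p ^ 2)) := by
      intro n hn
      obtain ⟨p, hp, hnp⟩ := hnorm n hn
      rw [Finset.mem_union, Finset.mem_union]
      rcases hnp with rfl | rfl
      · by_cases h : n = 2
        · right; left; rw [h]; exact Finset.mem_singleton_self 2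
        · left
          rw [hP, Finset.mem_filter]
          exact ⟨hn, hp, h⟩
      · right; right
        obtain ⟨J, hJ, hJp⟩ := Finset.mem_image.1 hn
        have h1 := (hW J ((hFmem J).1 hJ)).2
        rw [Finset.mem_image]
        refine ⟨p, ?_, rfl⟩
        rw [Finset.mem_Icc]
        refine ⟨hp.one_lt.le, Nat.le_floor ?_⟩
        apply Real.le_sqrt_of_sq_le
        have h3 : f J = p ^ 2 := hJp
        rw [hf] at h3
        simp only at h3
        rw [h3] at h1
        push_cast at h1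
        exact h1
    have h1 : (F.image f).card ≤ P.card + (1 + ⌊√B⌋₊) := by
      refine (Finset.card_le_card hsub).trans ((Finset.card_union_le _ _).trans ?_)
      apply Nat.add_le_add_left
      refine (Finset.card_union_le _ _).trans ?_
      rw [Finset.card_singleton]
      apply Nat.add_le_add_left
      refine Finset.card_image_le.trans ?_
      rw [Nat.card_Icc]
      omega
    have h3 : W.ncard = F.card := by
      rw [hF, Set.ncard_eq_toFinset_card _ hWfin]
    have h4 : (W.ncard : ℝ) ≤ 3 * (P.card + (1 + ⌊√B⌋₊)) := by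
      rw [h3]
      exact_mod_cast hcard.trans (Nat.mul_le_mul_left 3 h1)
    have h5 : (⌊√B⌋₊ : ℝ) ≤ √B := Nat.floor_le (Real.sqrt_nonneg _)
    linarith

end Pool.Agent.W24.NC
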