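import Pool.Agent.W24.NC.Par
import Pool.Agent.W24.NC.Det
import Pool.Agent.R345.IXEnd

/-!
# Arbitrary sets of small prime ideals
-/

set_option autoImplicit false

namespace Pool.Agent.W24.NC

open Finset Filter NumberField Pool.Agent.H38R2.CG Pool.Agent.H38R2.CG2 Pool.Agent.H38R2.CG3
open Pool.Agent.R345.IX (high_card SD_nonneg Lone_le Dof isFund_Dof dyadic Qz_two floor_two)
open scoped Classical

/-- The ideal classes that are products of at most `n` classes of ideals of the set `W`. -/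
def Products (K : Type) [Field K] [NumberField K] (W : Set (nonZeroDivisors (Ideal (𝓞 K))))
    (n : ℝ) : Set (ClassGroup (𝓞 K)) :=
  {C | ∃ L : Multiset (nonZeroDivisors (Ideal (𝓞 K))), (∀ P ∈ L, P ∈ W) ∧
    (L.card : ℝ) ≤ n ∧ (L.map (fun P => ClassGroup.mk0 P)).prod = C}

/-- The exponent. -/
noncomputable def EE (a c : ℝ) : ℝ := if 2 ≤ a then (1 - c) * a / (a - 1) else 3 / 2 + 1 / a - 2 * c

/-- the relative size of the number of factors -/
noncomputable def kap (a : ℝ) : ℝ := if 2 ≤ a then a / (2 * (a - 1)) else 1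

theorem kap_pos (a : ℝ) : 0 < kap a := by
  unfold kap
  split_ifs with h
  · exact div_pos (by linarith) (by linarith)
  · exact one_pos

theorem kap_le (a : ℝ) : kap a ≤ 1 := by
  unfold kap
  split_ifs with h
  · rw [div_le_one (by linarith)]
    linarith
  · exact le_rfl

theorem exp1 (a c : ℝ) (ha : 1 < a) : 1 / 2 + kap a + kap a / a - 2 * kap a * c ≤ EE a c := by
  unfold kap EE
  have ha0 : a ≠ 0 := by linarith
  have ha1 : a - 1 ≠ 0 := by linarith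
  split_ifs with h
  · apply le_of_eq
    field_simp
    ring
  · apply le_of_eq
    ring

theorem exp2 (a c : ℝ) (ha : 1 < a) (_hc : c ≤ 1) : 2 * kap a * (1 - c) ≤ EE a c := by
  unfold kap EE
  have ha1 : a - 1 ≠ 0 := by linarith
  split_ifs with h
  · apply le_of_eq
    field_simp
  · push Not at h
    have h1 : 1 / 2 ≤ 1 / a := by
      apply one_div_le_one_div_of_le (by linarith)
      exact h.le
    linarith

theorem EE_nonneg (a c : ℝ) (ha : 1 < a) (hc : c ≤ 1) : 0 ≤ EE a c := by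
  refine le_trans ?_ (exp2 a c ha hc)
  have := kap_pos a
  have h1 : 0 ≤ 1 - c := by linarith
  positivity

theorem EE_le (a c : ℝ) (ha : 1 < a) (hc : 1 / 2 + 1 / (2 * a) ≤ c) : EE a c ≤ 1 / 2 := by
  unfold EE
  have h0 : 1 / (2 * a) = (1 / a) / 2 := by rw [one_div, one_div, mul_inv]; ring
  split_ifs with h
  · rw [div_le_iff₀ (by linarith)]
    have h1 : 1 - c ≤ 1 / 2 - 1 / (2 * a) := by linarith
    have h2 : (1 - c) * a ≤ (1 / 2 - 1 / (2 * a)) * a :=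
      mul_le_mul_of_nonneg_right h1 (by linarith)
    have h3 : (1 / 2 - 1 / (2 * a)) * a = 1 / 2 * (a - 1) := by
      field_simp
    linarith
  · rw [h0] at hc
    linarith

/-- the odd primes up to the bound -/
noncomputable def QQ (a : ℝ) (X : ℕ) : Finset ℕ :=
  (Finset.Icc 1 (yy a X)).filter (fun p => p.Prime ∧ p ≠ 2)

/-- the exceptional discriminants -/
def BadW (a e : ℝ) (X D : ℕ) : Prop := ∃ (K : Type) (_ : Field K) (_ : NumberField K),
  Module.finrank ℚ K = 2 ∧ NumberField.discr K = (D : ℤ) ∧ ∃ c : ℝ, 1 / 2 + 1 / (2 * a) ≤ c ∧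
    c ≤ 1 ∧ ∃ W : Set (nonZeroDivisors (Ideal (𝓞 K))),
      (∀ J ∈ W, (J : Ideal (𝓞 K)).IsPrime ∧
        ((Ideal.absNorm (J : Ideal (𝓞 K)) : ℕ) : ℝ) ≤ (2 * Real.log X) ^ a) ∧
      (Real.log X / 2) ^ (a * c) ≤ (W.ncard : ℝ) ∧
      ¬ ((Nat.card (ClassGroup (𝓞 K)) : ℝ) ≤
        (X : ℝ) ^ (EE a c + e) * ((Products K W (kk a (kap a) X)).ncard : ℝ))

/-- the deterministic part -/
theorem not_bad (hN0 : P_N0) (hN1 : P_N1) (hN2 : P_N2) (hN3 : P_N3) (h4 : P_N4) (hKF : P_KF)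
    (h5b : P_N5b) (hN6 : P_N6) (a η C : ℝ) (ha : 1 < a) (hC : 0 < C)
    (hLone : ∀ D : ℕ, IsFund D → Lone D ≤ C * (1 + Real.log D))
    (hη : 0 < η) (X D : ℕ) (hD : IsFund D)
    (hDX : D ≤ 2 * X) (hX : 1 ≤ X) (hL1 : 2 ≤ Real.log X)
    (hA : (12 * 2 ^ a : ℝ) ^ (kk a (kap a) X) ≤ (X : ℝ) ^ η)
    (hy : (yy a X : ℝ) ^ kk a (kap a) X ≤ (X : ℝ) ^ kap a)
    (hlow : (X : ℝ) ^ (kap a / a - η) ≤ (Real.log X) ^ kk a (kap a) X)
    (hup : (Real.log X) ^ kk a (kap a) X ≤ (X : ℝ) ^ (kap a / a))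
    (hkL : (kk a (kap a) X : ℝ) ≤ Real.log X)
    (hs1 : 6 * (1 + (2 * Real.log X) ^ (a / 2)) ≤ (Real.log X / 2) ^ (a / 2 + 1 / 2))
    (hs2 : 12 * Real.log X ≤ (Real.log X / 2) ^ (a / 2 + 1 / 2))
    (hL2 : C * (2 + Real.log X) ≤ (X : ℝ) ^ η) (h8 : 8 ≤ (X : ℝ) ^ η)
    (hhigh : SD D ((QQ a X).powersetCard (kk a (kap a) X)) (fun _ => 1) ≤ (X : ℝ) ^ (4 * η) *
      (((QQ a X).card.choose (kk a (kap a) X) : ℝ) +
        ((QQ a X).card.choose (kk a (kap a) X) : ℝ) ^ 2 / √(X : ℝ))) :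
    ¬ BadW a ((2 * a + 8) * η) X D := by
  rintro ⟨K, i1, i2, h2, hK, c, hc1, hc2, W, hW, hWc, hne⟩
  apply hne
  have ha0 : 0 < a := by linarith
  have hXr : (1 : ℝ) ≤ X := by exact_mod_cast hX
  have hX0 : (0 : ℝ) < X := by linarith
  have hsX : 0 < √(X : ℝ) := Real.sqrt_pos.2 hX0
  set L : ℝ := Real.log X with hL
  have hL0 : 0 < L := by linarith
  set κ := kap a with hκ
  have hκ0 : 0 < κ := kap_pos a
  have hκ1 : κ ≤ 1 := kap_le a
  set y := yy a X with hydef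
  set k := kk a κ X with hk
  set Q := QQ a X with hQdef
  have hQ : ∀ p ∈ Q, p.Prime ∧ p ≠ 2 := by
    intro p hp
    rw [hQdef] at hp
    exact (Finset.mem_filter.1 hp).2
  obtain ⟨P, hP1, hP2⟩ := below hN2 K D hD h2 hK W ((2 * L) ^ a) hW
  have hPQ : P ⊆ Q := by
    intro p hp
    obtain ⟨g1, g2, g3, -⟩ := hP1 p hp
    rw [hQdef]
    unfold QQ
    rw [Finset.mem_filter, Finset.mem_Icc]
    exact ⟨⟨g1.one_lt.le, Nat.le_floor g3⟩, g1, g2⟩
  -- the number of primes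
  have hLh : 1 ≤ L / 2 := by linarith
  have hac : a / 2 + 1 / 2 ≤ a * c := by
    have h1 : a * (1 / 2 + 1 / (2 * a)) ≤ a * c := mul_le_mul_of_nonneg_left hc1 ha0.le
    have h3 : a * (1 / 2 + 1 / (2 * a)) = a / 2 + 1 / 2 := by field_simp
    linarith
  have hpow1 : (L / 2) ^ (a / 2 + 1 / 2) ≤ (L / 2) ^ (a * c) :=
    Real.rpow_le_rpow_of_exponent_le hLh hac
  have hsq : √((2 * L) ^ a) = (2 * L) ^ (a / 2) := by
    rw [Real.sqrt_eq_rpow, ← Real.rpow_mul (by positivity)]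
    congr 1
    ring
  have hPc : (L / 2) ^ (a * c) / 6 ≤ P.card := by
    rw [hsq] at hP2
    linarith
  have h2k : 2 * k ≤ P.card := by
    have h1 : (2 : ℝ) * k ≤ P.card := by linarith
    exact_mod_cast h1
  -- choosing the ideals
  have hch : ∀ p : ℕ, ∃ J : nonZeroDivisors (Ideal (𝓞 K)), p ∈ P →
      J ∈ W ∧ Ideal.absNorm (J : Ideal (𝓞 K)) = p := by
    intro p
    by_cases hp : p ∈ P
    · obtain ⟨-, -, -, J, hJ, hJp⟩ := hP1 p hp
      exact ⟨J, fun _ => ⟨hJ, hJp⟩⟩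
    · exact ⟨1, fun h => absurd h hp⟩
  choose I hI using hch
  set T := Products K W (k : ℝ) with hT
  have hTs : ∀ s ∈ P.powersetCard k, ClassGroup.mk0 (∏ p ∈ s, I p) ∈ T := by
    intro s hs
    obtain ⟨g1, g2⟩ := Finset.mem_powersetCard.1 hs
    refine ⟨s.val.map I, ?_, ?_, ?_⟩
    · intro J hJ
      obtain ⟨p, hp, rfl⟩ := Multiset.mem_map.1 hJ
      exact (hI p (g1 (by simpa using hp))).1
    · rw [Multiset.card_map, Finset.card_val, g2]
    · rw [map_prod, Multiset.map_map]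
      rfl
  have hR := classes hN0 hN1 hN3 h4 hKF h5b hN6 K D hD h2 hK Q P hQ hPQ k I
    (fun p hp => (hI p hp).2) T hTs
  have hQy : (Q.card : ℝ) ≤ y := by
    have h1 : Q.card ≤ y := by
      rw [hQdef]
      unfold QQ
      refine (Finset.card_filter_le _ _).trans ?_
      rw [Nat.card_Icc]
      omega
    exact_mod_cast h1
  obtain ⟨hr1, hr2⟩ := choose_ratio Q.card P.card k y hQy h2k
  set M : ℝ := (Q.card.choose k : ℝ) with hM
  set m : ℝ := (P.card.choose k : ℝ) with hm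
  have hm0 : 0 < m := by
    rw [hm]
    exact_mod_cast Nat.choose_pos (by omega)
  have hM0 : 0 ≤ M := Nat.cast_nonneg _
  set U : ℝ := (X : ℝ) ^ (κ * c - (a + 1) * η) with hU
  have hU0 : 0 < U := Real.rpow_pos_of_pos hX0 _
  have hc0 : 0 ≤ c := by
    have : 0 < 1 / (2 * a) := by positivity
    linarith
  have hUle : U ≤ ((P.card : ℝ) / 2) ^ k := by
    have h1 : (L / 2) ^ (a * c) / 12 ≤ (P.card : ℝ) / 2 := by linarith
    have h3 : ((L / 2) ^ (a * c) / 12) ^ k ≤ ((P.card : ℝ) / 2) ^ k :=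
      pow_le_pow_left₀ (by positivity) h1 k
    refine le_trans ?_ h3
    have h5 : (L ^ (a * c) / (12 * 2 ^ a)) ^ k ≤ ((L / 2) ^ (a * c) / 12) ^ k := by
      apply pow_le_pow_left₀ (by positivity)
      rw [Real.div_rpow hL0.le (by norm_num), div_div]
      apply div_le_div_of_nonneg_left (by positivity) (by positivity)
      have h6 : (2 : ℝ) ^ (a * c) ≤ 2 ^ a :=
        Real.rpow_le_rpow_of_exponent_le (by norm_num) (by nlinarith)
      nlinarith
    refine le_trans ?_ h5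
    rw [div_pow, le_div_iff₀ (by positivity)]
    have h6 : (L ^ (a * c)) ^ k = (L ^ k) ^ (a * c) := by
      rw [← Real.rpow_natCast (L ^ (a * c)) k, ← Real.rpow_mul hL0.le,
        ← Real.rpow_natCast L k, ← Real.rpow_mul hL0.le]
      congr 1
      ring
    rw [h6]
    calc U * (12 * 2 ^ a) ^ k ≤ U * (X : ℝ) ^ η := by gcongr
      _ = (X : ℝ) ^ (κ * c - (a + 1) * η + η) := by rw [hU, ← Real.rpow_add hX0]
      _ ≤ (X : ℝ) ^ ((κ / a - η) * (a * c)) := by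
        apply Real.rpow_le_rpow_of_exponent_le hXr
        have h7 : (κ / a - η) * (a * c) = κ * c - a * c * η := by field_simp
        rw [h7]
        have h8 : a * c * η ≤ a * 1 * η := by gcongr
        linarith
      _ = ((X : ℝ) ^ (κ / a - η)) ^ (a * c) := by rw [Real.rpow_mul hX0.le]
      _ ≤ (L ^ k) ^ (a * c) := by
        apply Real.rpow_le_rpow (by positivity) hlow (by positivity)
  -- comparison of the binomial coefficients
  set u : ℝ := (X : ℝ) ^ (κ - (κ * c - (a + 1) * η)) with hu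
  set v : ℝ := (X : ℝ) ^ (κ / a - (κ * c - (a + 1) * η)) with hv
  have hu0 : 0 < u := Real.rpow_pos_of_pos hX0 _
  have hv0 : 0 < v := Real.rpow_pos_of_pos hX0 _
  have hMu : M ≤ u * m := by
    have h1 : M * U ≤ (X : ℝ) ^ κ * m := by
      calc M * U ≤ M * ((P.card : ℝ) / 2) ^ k := by gcongr
        _ ≤ (y : ℝ) ^ k * m := hr1
        _ ≤ _ := by gcongr
    have h3 : u * m = (X : ℝ) ^ κ * m / U := by
      rw [hu, hU, Real.rpow_sub hX0 κ]
      ring
    rw [h3, le_div_iff₀ hU0]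
    exact h1
  have hvm : 1 ≤ v * m := by
    have h1 : U ≤ (X : ℝ) ^ (κ / a) * m := by
      calc U ≤ ((P.card : ℝ) / 2) ^ k := hUle
        _ ≤ (k : ℝ) ^ k * m := hr2
        _ ≤ L ^ k * m := by gcongr
        _ ≤ _ := by gcongr
    have h3 : v * m = (X : ℝ) ^ (κ / a) * m / U := by
      rw [hv, hU, Real.rpow_sub hX0 (κ / a)]
      ring
    rw [h3, le_div_iff₀ hU0, one_mul]
    exact h1
  set h : ℝ := (Nat.card (ClassGroup (𝓞 K)) : ℝ) with hh
  set R : ℝ := (T.ncard : ℝ) with hRdef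
  set sd := SD D (Q.powersetCard k) (fun _ => 1) with hsd
  have hR0 : 0 ≤ R := Nat.cast_nonneg _
  have hsd0 : 0 ≤ sd := SD_nonneg D _
  have hD1 : 1 < D := hD.1
  have hDr : (1 : ℝ) < D := by exact_mod_cast hD1
  have hDX' : (D : ℝ) ≤ 2 * X := by exact_mod_cast hDX
  have hlogD : Real.log D ≤ 1 + L := by
    have h1 : Real.log D ≤ Real.log (2 * X) := Real.log_le_log (by linarith) hDX'
    rw [Real.log_mul (by norm_num) hX0.ne'] at h1
    have := Real.log_two_lt_d9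
    linarith
  have hL0' : 0 ≤ Lone D := (hN3 K D hD h2 hK).1
  have hLo : Lone D ≤ (X : ℝ) ^ η := by
    refine (hLone D hD).trans (le_trans ?_ hL2)
    apply mul_le_mul_of_nonneg_left _ hC.le
    linarith
  have hsD : √(D : ℝ) ≤ 2 * √(X : ℝ) := by
    rw [Real.sqrt_le_left (by positivity), mul_pow, Real.sq_sqrt hX0.le]
    linarith
  have hXη : 0 < (X : ℝ) ^ η := Real.rpow_pos_of_pos hX0 _
  have hX4η : 0 < (X : ℝ) ^ (4 * η) := Real.rpow_pos_of_pos hX0 _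
  have hMM : M + M ^ 2 / √(X : ℝ) ≤ (u * v + u ^ 2 / √(X : ℝ)) * m ^ 2 := by
    have h1 : M ≤ (u * v) * m ^ 2 := by
      calc M ≤ u * m := hMu
        _ = (u * m) * 1 := by ring
        _ ≤ (u * m) * (v * m) := by gcongr
        _ = _ := by ring
    have h3 : M ^ 2 / √(X : ℝ) ≤ (u * m) ^ 2 / √(X : ℝ) := by gcongr
    calc M + M ^ 2 / √(X : ℝ) ≤ (u * v) * m ^ 2 + (u * m) ^ 2 / √(X : ℝ) := add_le_add h1 h3
      _ = _ := by ring
  have h1 : h * m ^ 2 ≤ (R * (2 * (2 * √(X : ℝ)) * (X : ℝ) ^ η *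
      ((X : ℝ) ^ (4 * η) * (u * v + u ^ 2 / √(X : ℝ))))) * m ^ 2 := by
    calc h * m ^ 2 ≤ R * (2 * √(D : ℝ) * Lone D * sd) := hR
      _ ≤ R * (2 * (2 * √(X : ℝ)) * (X : ℝ) ^ η * ((X : ℝ) ^ (4 * η) *
          (M + M ^ 2 / √(X : ℝ)))) := by gcongr
      _ ≤ R * (2 * (2 * √(X : ℝ)) * (X : ℝ) ^ η * ((X : ℝ) ^ (4 * η) *
          ((u * v + u ^ 2 / √(X : ℝ)) * m ^ 2))) := by gcongr
      _ = _ := by ring
  have h3 : h ≤ R * (2 * (2 * √(X : ℝ)) * (X : ℝ) ^ η *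
      ((X : ℝ) ^ (4 * η) * (u * v + u ^ 2 / √(X : ℝ)))) :=
    le_of_mul_le_mul_right h1 (by positivity)
  have hE1 : √(X : ℝ) * (u * v) ≤ (X : ℝ) ^ (EE a c + 2 * (a + 1) * η) := by
    rw [Real.sqrt_eq_rpow, hu, hv, ← Real.rpow_add hX0, ← Real.rpow_add hX0]
    apply Real.rpow_le_rpow_of_exponent_le hXr
    have := exp1 a c ha
    rw [← hκ] at this
    linarith
  have hE2 : u ^ 2 ≤ (X : ℝ) ^ (EE a c + 2 * (a + 1) * η) := by
    rw [hu, ← Real.rpow_natCast, ← Real.rpow_mul hX0.le]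
    apply Real.rpow_le_rpow_of_exponent_le hXr
    have := exp2 a c ha hc2
    rw [← hκ] at this
    push_cast
    linarith
  calc h ≤ R * (2 * (2 * √(X : ℝ)) * (X : ℝ) ^ η *
      ((X : ℝ) ^ (4 * η) * (u * v + u ^ 2 / √(X : ℝ)))) := h3
    _ = 4 * (X : ℝ) ^ η * (X : ℝ) ^ (4 * η) * (√(X : ℝ) * (u * v) + u ^ 2) * R := by
      field_simp
      ring
    _ ≤ 4 * (X : ℝ) ^ η * (X : ℝ) ^ (4 * η) * ((X : ℝ) ^ (EE a c + 2 * (a + 1) * η) +
        (X : ℝ) ^ (EE a c + 2 * (a + 1) * η)) * R := by gcongr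
    _ = 8 * ((X : ℝ) ^ η * (X : ℝ) ^ (4 * η) * (X : ℝ) ^ (EE a c + 2 * (a + 1) * η)) * R := by ring
    _ ≤ (X : ℝ) ^ η * ((X : ℝ) ^ η * (X : ℝ) ^ (4 * η) *
        (X : ℝ) ^ (EE a c + 2 * (a + 1) * η)) * R := by gcongr
    _ = (X : ℝ) ^ (EE a c + (2 * a + 8) * η) * R := by
        rw [← Real.rpow_add hX0, ← Real.rpow_add hX0, ← Real.rpow_add hX0]
        congr 2
        ring

end Pool.Agent.W24.NC
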