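import Pool.Agent.W24.NC.Main

/-!
# Fixed sets of small primes
-/

set_option autoImplicit false

namespace Pool.Agent.W24.NC

open Finset Filter NumberField Pool.Agent.H38R2.CG Pool.Agent.H38R2.CG2 Pool.Agent.H38R2.CG3
open Pool.Agent.R345.IX (high_card SD_nonneg Lone_le Dof isFund_Dof Qz_two floor_two
  choose_cmp low_set chi_odd)
open scoped Classical

/-- The prime ideals whose norm is in the set `P`. -/
def Above (K : Type) [Field K] [NumberField K] (P : Finset ℕ) :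
    Set (nonZeroDivisors (Ideal (𝓞 K))) :=
  {J | (J : Ideal (𝓞 K)).IsPrime ∧ Ideal.absNorm (J : Ideal (𝓞 K)) ∈ P}

/-- the exceptional discriminants -/
def BadF (a θ : ℝ) (P : Finset ℕ) (X D : ℕ) : Prop :=
  ∃ (K : Type) (_ : Field K) (_ : NumberField K),
    Module.finrank ℚ K = 2 ∧ NumberField.discr K = (D : ℤ) ∧
      ¬ ((Nat.card (ClassGroup (𝓞 K)) : ℝ) ≤
        (X : ℝ) ^ θ * ((Products K (Above K P) (kk a 1 X)).ncard : ℝ))

/-- many primes are norms of ideals -/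
theorem many (D : ℕ) (P : Finset ℕ)
    (hlow : (P.card : ℝ) / 5 ≤ ∑ p ∈ P, (1 + ((jacobiSym (D : ℤ) p : ℤ) : ℝ))) :
    P.card ≤ 10 * (P.filter (fun p => 0 ≤ jacobiSym (D : ℤ) p)).card := by
  set P1 := P.filter (fun p => 0 ≤ jacobiSym (D : ℤ) p) with hP1
  have h1 : ∑ p ∈ P, (1 + ((jacobiSym (D : ℤ) p : ℤ) : ℝ)) ≤ 2 * P1.card := by
    calc ∑ p ∈ P, (1 + ((jacobiSym (D : ℤ) p : ℤ) : ℝ))
        ≤ ∑ p ∈ P, (if 0 ≤ jacobiSym (D : ℤ) p then (2 : ℝ) else 0) := by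
          refine Finset.sum_le_sum fun p _ => ?_
          rcases jacobiSym.trichotomy (D : ℤ) p with h | h | h <;> rw [h] <;> norm_num
      _ = 2 * P1.card := by
          rw [← Finset.sum_filter, Finset.sum_const, nsmul_eq_mul, mul_comm]
  have : (P.card : ℝ) ≤ 10 * P1.card := by linarith
  exact_mod_cast this

/-- the deterministic part -/
theorem not_badF (hN0 : P_N0) (hSPL : P_SPL) (hN1 : P_N1) (hN3 : P_N3) (h4 : P_N4) (hKF : P_KF)
    (h5b : P_N5b) (hN6 : P_N6) (a c η θ C : ℝ) (ha : 1 < a) (hc0 : 0 < c) (hc2 : c ≤ 1) (hC : 0 < C)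
    (hLone : ∀ D : ℕ, IsFund D → Lone D ≤ C * (1 + Real.log D))
    (hθ0 : 0 ≤ θ) (hθ : 1 / 2 - c + 1 / a ≤ θ)
    (hη : 0 < η) (X D : ℕ) (hD : IsFund D)
    (hDX : D ≤ 2 * X) (hX : 1 ≤ X) (hL1 : 2 ≤ Real.log X)
    (hA : (400 * 2 ^ a : ℝ) ^ (kk a 1 X) ≤ (X : ℝ) ^ η)
    (hlow' : (X : ℝ) ^ (1 / a - η) ≤ (Real.log X) ^ kk a 1 X)
    (hup : (Real.log X) ^ kk a 1 X ≤ (X : ℝ) ^ (1 / a))
    (hkL : (kk a 1 X : ℝ) ≤ Real.log X)
    (P : Finset ℕ) (hP : ∀ p ∈ P, p.Prime ∧ p ≠ 2)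
    (hPc : (Real.log X / 2) ^ (a * c) / 2 ≤ (P.card : ℝ)) (h20 : 20 * kk a 1 X ≤ P.card)
    (hL2 : C * (2 + Real.log X) ≤ (X : ℝ) ^ η) (h8 : 8 ≤ (X : ℝ) ^ η)
    (hlow : (P.card : ℝ) / 5 ≤ ∑ p ∈ P, (1 + ((jacobiSym (D : ℤ) p : ℤ) : ℝ)))
    (hhigh : SD D (P.powersetCard (kk a 1 X)) (fun _ => 1) ≤ (X : ℝ) ^ (4 * η) *
      ((P.card.choose (kk a 1 X) : ℝ) + (P.card.choose (kk a 1 X) : ℝ) ^ 2 / √(X : ℝ))) :
    ¬ BadF a (θ + (a + 9) * η) P X D := by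
  rintro ⟨K, i1, i2, h2, hK, hne⟩
  apply hne
  have ha0 : 0 < a := by linarith
  have hXr : (1 : ℝ) ≤ X := by exact_mod_cast hX
  have hX0 : (0 : ℝ) < X := by linarith
  have hsX : 0 < √(X : ℝ) := Real.sqrt_pos.2 hX0
  set L : ℝ := Real.log X with hL
  have hL0 : 0 < L := by linarith
  set k := kk a 1 X with hk
  set P1 := P.filter (fun p => 0 ≤ jacobiSym (D : ℤ) p) with hP1
  have hP1P : P1 ⊆ P := Finset.filter_subset _ _
  have h10 := many D P hlow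
  have hcmp := choose_cmp P.card P1.card k h10 h20
  -- choosing the ideals
  have hch : ∀ p : ℕ, ∃ J : nonZeroDivisors (Ideal (𝓞 K)), p ∈ P1 →
      (J : Ideal (𝓞 K)).IsPrime ∧ Ideal.absNorm (J : Ideal (𝓞 K)) = p := by
    intro p
    by_cases hp : p ∈ P1
    · have hpP := hP p (hP1P hp)
      obtain ⟨s1, s2, -⟩ := hSPL K D hD h2 hK p hpP.1
      have hj : (0 : ℤ) ≤ jacobiSym (D : ℤ) p := (Finset.mem_filter.1 hp).2
      have hchi := chi_odd (D : ℤ) p hpP.1 hpP.2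
      obtain ⟨J, hJ1, hJ2⟩ : ∃ J : Ideal (𝓞 K), J.IsPrime ∧ Ideal.absNorm J = p := by
        rcases jacobiSym.trichotomy (D : ℤ) p with h | h | h
        · obtain ⟨J, g1, g2, -⟩ := s2 (by rw [hchi, h])
          exact ⟨J, g1, g2⟩
        · obtain ⟨J, J', -, g1, -, g2, -, -⟩ := s1 (by rw [hchi, h])
          exact ⟨J, g1, g2⟩
        · rw [h] at hj
          norm_num at hj
      have hJ0 : J ∈ nonZeroDivisors (Ideal (𝓞 K)) := by
        rw [← Ideal.absNorm_ne_zero_iff_mem_nonZeroDivisors, hJ2]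
        exact hpP.1.pos.ne'
      exact ⟨⟨J, hJ0⟩, fun _ => ⟨hJ1, hJ2⟩⟩
    · exact ⟨1, fun h => absurd h hp⟩
  choose I hI using hch
  set T := Products K (Above K P) (k : ℝ) with hT
  have hTs : ∀ s ∈ P1.powersetCard k, ClassGroup.mk0 (∏ p ∈ s, I p) ∈ T := by
    intro s hs
    obtain ⟨g1, g2⟩ := Finset.mem_powersetCard.1 hs
    refine ⟨s.val.map I, ?_, ?_, ?_⟩
    · intro J hJ
      obtain ⟨p, hp, rfl⟩ := Multiset.mem_map.1 hJ
      have hp' : p ∈ P1 := g1 (by simpa using hp)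
      refine ⟨(hI p hp').1, ?_⟩
      rw [(hI p hp').2]
      exact hP1P hp'
    · rw [Multiset.card_map, Finset.card_val, g2]
    · rw [map_prod, Multiset.map_map]
      rfl
  have hR := classes hN0 hN1 hN3 h4 hKF h5b hN6 K D hD h2 hK P P1 hP hP1P k I
    (fun p hp => (hI p hp).2) T hTs
  set M : ℝ := (P.card.choose k : ℝ) with hM
  set m : ℝ := (P1.card.choose k : ℝ) with hm
  have hMm : M ≤ 20 ^ k * m := by
    rw [hM, hm]
    exact_mod_cast hcmp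
  set U : ℝ := (X : ℝ) ^ (c - (a + 1) * η) with hU
  have hU0 : 0 < U := Real.rpow_pos_of_pos hX0 _
  have hUle : U ≤ ((P.card : ℝ) / 2) ^ k := by
    have h1 : (L / 2) ^ (a * c) / 4 ≤ (P.card : ℝ) / 2 := by linarith
    have h3 : ((L / 2) ^ (a * c) / 4) ^ k ≤ ((P.card : ℝ) / 2) ^ k :=
      pow_le_pow_left₀ (by positivity) h1 k
    refine le_trans ?_ h3
    have h5 : (L ^ (a * c) / (400 * 2 ^ a)) ^ k ≤ ((L / 2) ^ (a * c) / 4) ^ k := by
      apply pow_le_pow_left₀ (by positivity)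
      rw [Real.div_rpow hL0.le (by norm_num), div_div]
      apply div_le_div_of_nonneg_left (by positivity) (by positivity)
      have h6 : (2 : ℝ) ^ (a * c) ≤ 2 ^ a :=
        Real.rpow_le_rpow_of_exponent_le (by norm_num) (by nlinarith)
      have h7 : (0 : ℝ) < 2 ^ a := by positivity
      nlinarith
    refine le_trans ?_ h5
    rw [div_pow, le_div_iff₀ (by positivity)]
    have h6 : (L ^ (a * c)) ^ k = (L ^ k) ^ (a * c) := by
      rw [← Real.rpow_natCast (L ^ (a * c)) k, ← Real.rpow_mul hL0.le,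
        ← Real.rpow_natCast L k, ← Real.rpow_mul hL0.le]
      congr 1
      ring
    rw [h6]
    calc U * (400 * 2 ^ a) ^ k ≤ U * (X : ℝ) ^ η := by gcongr
      _ = (X : ℝ) ^ (c - (a + 1) * η + η) := by rw [hU, ← Real.rpow_add hX0]
      _ ≤ (X : ℝ) ^ ((1 / a - η) * (a * c)) := by
        apply Real.rpow_le_rpow_of_exponent_le hXr
        have h7 : (1 / a - η) * (a * c) = c - a * c * η := by field_simp
        rw [h7]
        have h8 : a * c * η ≤ a * 1 * η := by gcongr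
        linarith
      _ = ((X : ℝ) ^ (1 / a - η)) ^ (a * c) := by rw [Real.rpow_mul hX0.le]
      _ ≤ (L ^ k) ^ (a * c) := by
        apply Real.rpow_le_rpow (by positivity) hlow' (by positivity)
  have hr2 : ((P.card : ℝ) / 2) ^ k ≤ (k : ℝ) ^ k * M :=
    (choose_ratio P.card P.card k P.card le_rfl (by omega)).2
  set v : ℝ := (X : ℝ) ^ (1 / a - (c - (a + 1) * η)) with hv
  have hv0 : 0 < v := Real.rpow_pos_of_pos hX0 _
  have hvM : 1 ≤ v * M := by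
    have h1 : U ≤ (X : ℝ) ^ (1 / a) * M := by
      calc U ≤ ((P.card : ℝ) / 2) ^ k := hUle
        _ ≤ (k : ℝ) ^ k * M := hr2
        _ ≤ L ^ k * M := by gcongr
        _ ≤ _ := by gcongr
    have h3 : v * M = (X : ℝ) ^ (1 / a) * M / U := by
      rw [hv, hU, Real.rpow_sub hX0 (1 / a)]
      ring
    rw [h3, le_div_iff₀ hU0, one_mul]
    exact h1
  have hM0 : 0 < M := by
    by_contra h
    have : v * M ≤ 0 := mul_nonpos_of_nonneg_of_nonpos hv0.le (not_lt.1 h)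
    linarith
  have hm0 : 0 < m := by
    by_contra h
    have : (20 : ℝ) ^ k * m ≤ 0 := mul_nonpos_of_nonneg_of_nonpos (by positivity) (not_lt.1 h)
    linarith
  set h : ℝ := (Nat.card (ClassGroup (𝓞 K)) : ℝ) with hh
  set R : ℝ := (T.ncard : ℝ) with hRdef
  set sd := SD D (P.powersetCard k) (fun _ => 1) with hsd
  have hR0 : 0 ≤ R := Nat.cast_nonneg _
  have hh0 : 0 ≤ h := Nat.cast_nonneg _
  have hsd0 : 0 ≤ sd := SD_nonneg D _
  have hD1 : 1 < D := hD.1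
  have hDr : (1 : ℝ) < D := by exact_mod_cast hD1
  have hDX' : (D : ℝ) ≤ 2 * X := by exact_mod_cast hDX
  have hlogD : Real.log D ≤ 1 + L := by
    have h1 : Real.log D ≤ Real.log (2 * X) := Real.log_le_log (by linarith) hDX'
    rw [Real.log_mul (by norm_num) hX0.ne'] at h1
    have := Real.log_two_lt_d9
    linarith
  have hL0' : 0 ≤ Lone D := (hN3 K D hD h2 hK).1
  have hLo : Lone D ≤ (X : ℝ) ^ η := by
    refine (hLone D hD).trans (le_trans ?_ hL2)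
    apply mul_le_mul_of_nonneg_left _ hC.le
    linarith
  have hsD : √(D : ℝ) ≤ 2 * √(X : ℝ) := by
    rw [Real.sqrt_le_left (by positivity), mul_pow, Real.sq_sqrt hX0.le]
    linarith
  have hXη : 0 < (X : ℝ) ^ η := Real.rpow_pos_of_pos hX0 _
  have hX4η : 0 < (X : ℝ) ^ (4 * η) := Real.rpow_pos_of_pos hX0 _
  have e400 : (400 : ℝ) ^ k = (20 ^ k) ^ 2 := by
    rw [← pow_mul, mul_comm, pow_mul]; norm_num
  have h400 : (400 : ℝ) ^ k ≤ (X : ℝ) ^ η := by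
    refine le_trans (pow_le_pow_left₀ (by norm_num) ?_ _) hA
    have : (1 : ℝ) ≤ 2 ^ a := Real.one_le_rpow (by norm_num) ha0.le
    linarith
  have hMM : M + M ^ 2 / √(X : ℝ) ≤ (v + 1 / √(X : ℝ)) * M ^ 2 := by
    have h1 : M ≤ v * M ^ 2 := by
      calc M = 1 * M := by ring
        _ ≤ (v * M) * M := by gcongr
        _ = _ := by ring
    calc M + M ^ 2 / √(X : ℝ) ≤ v * M ^ 2 + M ^ 2 / √(X : ℝ) := by linarith
      _ = _ := by ring
  have h1 : h * m ^ 2 ≤ (400 ^ k * (R * (2 * (2 * √(X : ℝ)) * (X : ℝ) ^ η *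
      ((X : ℝ) ^ (4 * η) * (v + 1 / √(X : ℝ)))))) * m ^ 2 := by
    calc h * m ^ 2 ≤ R * (2 * √(D : ℝ) * Lone D * sd) := hR
      _ ≤ R * (2 * (2 * √(X : ℝ)) * (X : ℝ) ^ η * ((X : ℝ) ^ (4 * η) *
          (M + M ^ 2 / √(X : ℝ)))) := by gcongr
      _ ≤ R * (2 * (2 * √(X : ℝ)) * (X : ℝ) ^ η * ((X : ℝ) ^ (4 * η) *
          ((v + 1 / √(X : ℝ)) * M ^ 2))) := by gcongr
      _ ≤ R * (2 * (2 * √(X : ℝ)) * (X : ℝ) ^ η * ((X : ℝ) ^ (4 * η) *
          ((v + 1 / √(X : ℝ)) * (20 ^ k * m) ^ 2))) := by gcongr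
      _ = _ := by rw [e400]; ring
  have h3 : h ≤ 400 ^ k * (R * (2 * (2 * √(X : ℝ)) * (X : ℝ) ^ η *
      ((X : ℝ) ^ (4 * η) * (v + 1 / √(X : ℝ))))) :=
    le_of_mul_le_mul_right h1 (by positivity)
  have hE1 : √(X : ℝ) * v ≤ (X : ℝ) ^ (θ + (a + 1) * η) := by
    rw [Real.sqrt_eq_rpow, hv, ← Real.rpow_add hX0]
    apply Real.rpow_le_rpow_of_exponent_le hXr
    linarith
  have hE2 : (1 : ℝ) ≤ (X : ℝ) ^ (θ + (a + 1) * η) := Real.one_le_rpow hXr (by positivity)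
  calc h ≤ 400 ^ k * (R * (2 * (2 * √(X : ℝ)) * (X : ℝ) ^ η *
      ((X : ℝ) ^ (4 * η) * (v + 1 / √(X : ℝ))))) := h3
    _ = 400 ^ k * (4 * (X : ℝ) ^ η * (X : ℝ) ^ (4 * η) * (√(X : ℝ) * v + 1)) * R := by
      field_simp
      ring
    _ ≤ (X : ℝ) ^ η * (4 * (X : ℝ) ^ η * (X : ℝ) ^ (4 * η) * ((X : ℝ) ^ (θ + (a + 1) * η) +
        (X : ℝ) ^ (θ + (a + 1) * η))) * R := by gcongr
    _ = 8 * ((X : ℝ) ^ η * (X : ℝ) ^ η * (X : ℝ) ^ (4 * η) *
        (X : ℝ) ^ (θ + (a + 1) * η)) * R := by ring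
    _ ≤ (X : ℝ) ^ η * ((X : ℝ) ^ η * (X : ℝ) ^ η * (X : ℝ) ^ (4 * η) *
        (X : ℝ) ^ (θ + (a + 1) * η)) * R := by gcongr
    _ = (X : ℝ) ^ (θ + (a + 8) * η) * R := by
        rw [← Real.rpow_add hX0, ← Real.rpow_add hX0, ← Real.rpow_add hX0, ← Real.rpow_add hX0]
        congr 2
        ring
    _ ≤ (X : ℝ) ^ (θ + (a + 9) * η) * R := by
        gcongr
        norm_num

end Pool.Agent.W24.NC
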