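import Pool.Agent.W24.NC.FixMain

/-!
# Fixed sets of small primes: radicands
-/

set_option autoImplicit false

namespace Pool.Agent.W24.NC

open Finset Filter NumberField Pool.Agent.H38R2.CG Pool.Agent.H38R2.CG2 Pool.Agent.H38R2.CG3
open Pool.Agent.R345.IX (Dof isFund_Dof)
open scoped Classical

/-- dyadic summation -/
theorem dyadic_add (Q : ℕ → Prop) (δ : ℝ) (hδ2 : δ ≤ 1 / 2) (Y0 X1 : ℕ)
    (h : ∀ Y, Y0 ≤ Y → Y ≤ X1 → ((((Finset.Ioc Y (2 * Y)).filter Q).card : ℕ) : ℝ) ≤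
      5 * (Y : ℝ) ^ (1 - δ)) :
    ∀ X : ℕ, X ≤ X1 → ((((Finset.Icc 2 X).filter Q).card : ℕ) : ℝ) ≤
      (2 * Y0 + 3) + 25 * (X : ℝ) ^ (1 - δ) := by
  intro X
  induction X using Nat.strong_induction_on with
  | _ X ih =>
    intro hXX
    have hexp : 0 ≤ 1 - δ := by linarith
    rcases Nat.lt_or_ge X (2 * Y0 + 3) with hX | hX
    · have h1 : ((Finset.Icc 2 X).filter Q).card ≤ X := by
        refine (Finset.card_filter_le _ _).trans ?_
        rw [Nat.card_Icc]
        omega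
      have h2 : ((((Finset.Icc 2 X).filter Q).card : ℕ) : ℝ) ≤ X := by exact_mod_cast h1
      have h3 : (X : ℝ) ≤ 2 * Y0 + 3 := by exact_mod_cast hX.le
      have h4 : (0 : ℝ) ≤ (X : ℝ) ^ (1 - δ) := by positivity
      linarith
    · set Y := (X + 1) / 2 with hY
      have hYX : Y < X := by omega
      have hYY : Y0 ≤ Y := by omega
      have h2Y : X ≤ 2 * Y := by omega
      have hY3 : 3 * Y ≤ 2 * X := by omega
      have h1 := ih Y hYX (by omega)
      have h2 := h Y hYY (by omega)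
      have h3 : ((Finset.Icc 2 X).filter Q).card ≤ ((Finset.Icc 2 Y).filter Q).card +
          ((Finset.Ioc Y (2 * Y)).filter Q).card := by
        have hsub : (Finset.Icc 2 X).filter Q ⊆
            (Finset.Icc 2 Y).filter Q ∪ (Finset.Ioc Y (2 * Y)).filter Q := by
          intro d hd
          rw [Finset.mem_filter, Finset.mem_Icc] at hd
          rw [Finset.mem_union, Finset.mem_filter, Finset.mem_filter, Finset.mem_Icc,
            Finset.mem_Ioc]
          by_cases hdY : d ≤ Y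
          · exact Or.inl ⟨⟨hd.1.1, hdY⟩, hd.2⟩
          · exact Or.inr ⟨⟨by omega, by omega⟩, hd.2⟩
        exact (Finset.card_le_card hsub).trans (Finset.card_union_le _ _)
      have h4 : ((((Finset.Icc 2 X).filter Q).card : ℕ) : ℝ) ≤
          ((((Finset.Icc 2 Y).filter Q).card : ℕ) : ℝ) +
            ((((Finset.Ioc Y (2 * Y)).filter Q).card : ℕ) : ℝ) := by
        exact_mod_cast h3
      have hX0 : (0 : ℝ) < X := by
        have : 0 < X := by omega
        exact_mod_cast this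
      have hYr : (Y : ℝ) ≤ (2 / 3) * X := by
        have : (3 : ℝ) * Y ≤ 2 * X := by exact_mod_cast hY3
        linarith
      have h5 : (Y : ℝ) ^ (1 - δ) ≤ (5 / 6) * (X : ℝ) ^ (1 - δ) := by
        calc (Y : ℝ) ^ (1 - δ) ≤ ((2 / 3) * X) ^ (1 - δ) :=
              Real.rpow_le_rpow (Nat.cast_nonneg _) hYr hexp
          _ = (2 / 3 : ℝ) ^ (1 - δ) * (X : ℝ) ^ (1 - δ) := Real.mul_rpow (by norm_num) hX0.le
          _ ≤ (5 / 6) * (X : ℝ) ^ (1 - δ) := by
              apply mul_le_mul_of_nonneg_right _ (by positivity)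
              calc (2 / 3 : ℝ) ^ (1 - δ) ≤ (2 / 3 : ℝ) ^ (1 / 2 : ℝ) :=
                    Real.rpow_le_rpow_of_exponent_ge (by norm_num) (by norm_num) (by linarith)
                _ = √(2 / 3) := (Real.sqrt_eq_rpow _).symm
                _ ≤ 5 / 6 := by
                    rw [Real.sqrt_le_left (by norm_num)]
                    norm_num
      linarith

/-- the property of the radicand for a fixed set of primes -/
def GoodF (P : Finset ℕ) (t n : ℝ) (d : ℕ) : Prop :=
  ∀ (K : Type) [Field K] [NumberField K], Module.finrank ℚ K = 2 → (∃ x : K, x ^ 2 = (d : K)) →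
    (Nat.card (ClassGroup (𝓞 K)) : ℝ) ≤ t * ((Products K (Above K P) n).ncard : ℝ)

theorem above_mono {K : Type} [Field K] [NumberField K] {P P' : Finset ℕ} {n n' : ℝ}
    (hP : P ⊆ P') (hn : n ≤ n') : Products K (Above K P) n ⊆ Products K (Above K P') n' := by
  rintro C ⟨L, h1, h2, h3⟩
  exact ⟨L, fun J hJ => ⟨(h1 J hJ).1, hP (h1 J hJ).2⟩, h2.trans hn, h3⟩

/-- All but `X^(1-δ)` radicands up to `X` are good for a given set of primes. -/
theorem mainF (a c : ℝ) (ha : 1 < a) (hc : 1 / a < c) (hc1 : c ≤ 1) (ε : ℝ) (hε : 0 < ε) :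
    ∃ δ : ℝ, 0 < δ ∧ ∃ X0 : ℕ, ∀ X ≥ X0, ∀ P : Finset ℕ,
      (∀ p ∈ P, p.Prime ∧ (p : ℝ) ≤ (Real.log X) ^ a) → (Real.log X) ^ (a * c) ≤ (P.card : ℝ) →
      (((Finset.Icc 2 X).filter (fun d => Squarefree d ∧
        ¬ GoodF P ((X : ℝ) ^ (max 0 (1 / 2 - c + 1 / a) + ε))
          (Real.log X / Real.log (Real.log X)) d)).card : ℝ) ≤ (X : ℝ) ^ (1 - δ) := by
  have h_P_N0 : P_N0 := T_N0
  have h_P_N0d : P_N0d := T_N0d
  have h_P_SPL : P_SPL := T_SPL h_P_N0
  have h_P_N1 : P_N1 := T_N1 h_P_SPL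
  have h_P_N2 : P_N2 := T_N2 h_P_SPL
  have h_P_KR : P_KR := T_KR
  have h_P_PV : P_PV := T_PV
  have h_P_N3a : P_N3a := T_N3a h_P_KR h_P_PV
  have h_P_N3b : P_N3b := T_N3b h_P_KR h_P_PV h_P_N3a
  have h_P_N3 : P_N3 := T_N3 h_P_N2 h_P_N3b
  have h_P_N4a : P_N4a := T_N4a
  have h_P_N4b : P_N4b := T_N4b
  have h_P_N4 : P_N4 := T_N4 h_P_N4a h_P_N4b
  have h_P_KF : P_KF := T_KF
  have h_P_N5b : P_N5b := T_N5b h_P_KF h_P_N4
  have h_P_N6 : P_N6 := T_N6 h_P_KF
  set θ : ℝ := max 0 (1 / 2 - c + 1 / a) with hθ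
  have hθ0 : 0 ≤ θ := le_max_left _ _
  have ha0 : 0 < a := by linarith
  have hc0 : 0 < c := lt_trans (by positivity) hc
  obtain ⟨δ, hδ, hδ2, Z0, hZ0⟩ := count_badF h_P_N0 h_P_SPL h_P_N1 h_P_N3 h_P_N4 h_P_KF h_P_N5b
    h_P_N6 h_P_N3a h_P_PV a c ha hc hc1 (ε / 2) (by positivity)
  obtain ⟨Z1, hZ1⟩ := Filter.eventually_atTop.1 (params a 1 1 1 ha one_pos le_rfl one_pos le_rfl 1)
  refine ⟨δ / 2, by positivity, ?_⟩
  rw [← Filter.eventually_atTop]
  have e1 := ERRh.ev_const (ε / 2) (by positivity) ((4 : ℝ) ^ (θ + ε / 2))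
  have e2 := ERRh.ev_const (δ / 2) (by positivity) 50
  have e3 := ERRh.ev_const (1 / 4) (by norm_num) 100
  have e4 := ev_log _ (eventually_ge_atTop (max 8 (2 / (a - 1))))
  have e5 := ev_log _ (ev_l 1)
  filter_upwards [e1, e2, e3, e4, e5, eventually_ge_atTop ((Z0 + Z1 + 4) ^ 2)] with X hX1 hX2 hX3
    hX4 hX5 hX6 P hP hPc
  have hX0' : 0 < X := by
    have : 0 < (Z0 + Z1 + 4) ^ 2 := by positivity
    omega
  have hX0 : (0 : ℝ) < X := by exact_mod_cast hX0'
  have hXr : (1 : ℝ) ≤ X := by exact_mod_cast hX0'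
  set L : ℝ := Real.log X with hL
  have hL8 : 8 ≤ L := (le_max_left _ _).trans hX4
  have hLa : 2 / (a - 1) ≤ L := (le_max_right _ _).trans hX4
  have hL0 : 0 < L := by linarith
  set s := Nat.sqrt X with hs
  have hs1 : Z0 + Z1 + 4 ≤ s := by
    rw [hs, Nat.le_sqrt']
    exact hX6
  have hs2 : X < (s + 1) ^ 2 := Nat.lt_succ_sqrt' X
  have hs3 : s ^ 2 ≤ X := Nat.sqrt_le' X
  set Q : ℕ → Prop := fun d => Squarefree d ∧
    ¬ GoodF P ((X : ℝ) ^ (θ + ε)) (L / Real.log L) d with hQ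
  set P' := P.erase 2 with hP'
  have hP'P : P' ⊆ P := Finset.erase_subset _ _
  have hP'c : (P.card : ℝ) - 1 ≤ P'.card := by
    have : P.card - 1 ≤ P'.card := Finset.pred_card_le_card_erase
    have h1 : P.card ≤ P'.card + 1 := by omega
    have h2 : (P.card : ℝ) ≤ P'.card + 1 := by exact_mod_cast h1
    linarith
  have hlog4 : Real.log 4 ≤ 2 := by
    rw [show (4 : ℝ) = 2 ^ 2 by norm_num, Real.log_pow]
    have := Real.log_two_lt_d9
    push_cast
    linarith
  -- logarithms at the other scales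
  have hscale : ∀ Z : ℕ, s + 1 ≤ Z → Z ≤ 4 * X → L ≤ 2 * Real.log Z ∧ Real.log Z ≤ L + 2 := by
    intro Z h1 h2
    have hZ0' : (0 : ℝ) < Z := by
      have : 0 < Z := by omega
      exact_mod_cast this
    constructor
    · have h3 : X ≤ Z ^ 2 := hs2.le.trans (Nat.pow_le_pow_left h1 2)
      have h4 : (X : ℝ) ≤ (Z : ℝ) ^ 2 := by exact_mod_cast h3
      have h5 := Real.log_le_log hX0 h4
      rw [Real.log_pow] at h5
      push_cast at h5
      exact h5
    · have h3 : (Z : ℝ) ≤ 4 * X := by exact_mod_cast h2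
      have h4 := Real.log_le_log hZ0' h3
      rw [Real.log_mul (by norm_num) hX0.ne'] at h4
      linarith
  have hP1 : ∀ Z : ℕ, s + 1 ≤ Z → Z ≤ 4 * X →
      ∀ p ∈ P', p.Prime ∧ p ≠ 2 ∧ (p : ℝ) ≤ (2 * Real.log Z) ^ a := by
    intro Z h1 h2 p hp
    have hpP := hP p (hP'P hp)
    refine ⟨hpP.1, Finset.ne_of_mem_erase hp, hpP.2.trans ?_⟩
    exact Real.rpow_le_rpow hL0.le (hscale Z h1 h2).1 ha0.le
  have hP2 : ∀ Z : ℕ, s + 1 ≤ Z → Z ≤ 4 * X →
      (Real.log Z / 2) ^ (a * c) / 2 ≤ (P'.card : ℝ) := by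
    intro Z h1 h2
    have h3 : (Real.log Z / 2) ^ (a * c) ≤ L ^ (a * c) := by
      apply Real.rpow_le_rpow
      · have := Real.log_natCast_nonneg Z
        positivity
      · have := (hscale Z h1 h2).2
        linarith
      · positivity
    have h4 : 2 ≤ L ^ (a * c) := by
      have hac : 1 < a * c := by
        rw [div_lt_iff₀ ha0] at hc
        linarith
      calc (2 : ℝ) ≤ L := by linarith
        _ = L ^ (1 : ℝ) := (Real.rpow_one L).symm
        _ ≤ L ^ (a * c) := Real.rpow_le_rpow_of_exponent_le (by linarith) hac.le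
    linarith
  -- the number of factors
  have hfew : ∀ Z : ℕ, s + 1 ≤ Z → Z ≤ 4 * X → (kk a 1 Z : ℝ) ≤ L / Real.log L := by
    intro Z h1 h2
    obtain ⟨-, q1, q2, -, -, -, -, -, -, -, q10⟩ := hZ1 Z (by omega)
    obtain ⟨g1, g2⟩ := hscale Z h1 h2
    refine q10.trans ?_
    set t := Real.log Z with ht
    have hexp : Real.exp 1 ≤ 3 := by have := Real.exp_one_lt_d9; linarith
    have hanti := Real.log_div_self_antitoneOn (show Real.exp 1 ≤ t by linarith)
      (show Real.exp 1 ≤ L + 2 by linarith) g2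
    have hlt0 : 0 < Real.log t := Real.log_pos (by linarith)
    have hl20 : 0 < Real.log (L + 2) := Real.log_pos (by linarith)
    have hl0 : 0 < Real.log L := Real.log_pos (by linarith)
    have h4 : t / Real.log t ≤ (L + 2) / Real.log (L + 2) := by
      rw [div_le_div_iff₀ hlt0 hl20]
      have h5 : Real.log (L + 2) / (L + 2) ≤ Real.log t / t := hanti
      rw [div_le_div_iff₀ (by linarith) (by linarith)] at h5
      linarith
    have h5 : Real.log L ≤ Real.log (L + 2) := Real.log_le_log hL0 (by linarith)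
    have h6 : (L + 2) / Real.log (L + 2) ≤ (L + 2) / Real.log L :=
      div_le_div_of_nonneg_left (by linarith) hl0 h5
    calc t / (a * Real.log t) = t / Real.log t / a := by rw [div_div, mul_comm a]
      _ ≤ ((L + 2) / Real.log L) / a := by
        apply div_le_div_of_nonneg_right (h4.trans h6) ha0.le
      _ = ((L + 2) / a) / Real.log L := by ring
      _ ≤ L / Real.log L := by
        apply div_le_div_of_nonneg_right _ hl0.le
        rw [div_le_iff₀ ha0]
        rw [div_le_iff₀ (by linarith)] at hLa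
        nlinarith
  -- a bad radicand gives a bad discriminant
  have key : ∀ d : ℕ, 1 < d → Q d → ∀ Z : ℕ, s + 1 ≤ Z → Z ≤ 4 * X →
      IsFund (Dof d) ∧ BadF a (θ + ε / 2) P' Z (Dof d) := by
    intro d hd hQd Z hZa hZb
    obtain ⟨hsq, hbad⟩ := hQd
    refine ⟨isFund_Dof hd hsq, ?_⟩
    unfold GoodF at hbad
    push Not at hbad
    obtain ⟨K, i1, i2, h2, hx, hlt⟩ := hbad
    refine ⟨K, i1, i2, h2, ?_, ?_⟩
    · rw [h_P_N0d K d hd hsq h2 hx]
      unfold Dof
      split_ifs <;> push_cast <;> rfl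
    · intro hle
      refine absurd hle (not_le.2 (lt_of_le_of_lt ?_ hlt))
      have hsub : Products K (Above K P') (kk a 1 Z : ℝ) ⊆ Products K (Above K P) (L / Real.log L) :=
        above_mono hP'P (hfew Z hZa hZb)
      have hcard : ((Products K (Above K P') (kk a 1 Z : ℝ)).ncard : ℝ) ≤
          ((Products K (Above K P) (L / Real.log L)).ncard : ℝ) := by
        exact_mod_cast Set.ncard_le_ncard hsub (Set.toFinite _)
      have hpow : (Z : ℝ) ^ (θ + ε / 2) ≤ (X : ℝ) ^ (θ + ε) := by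
        calc (Z : ℝ) ^ (θ + ε / 2) ≤ (4 * (X : ℝ)) ^ (θ + ε / 2) := by
              apply Real.rpow_le_rpow (Nat.cast_nonneg _) _ (by positivity)
              exact_mod_cast hZb
          _ = (4 : ℝ) ^ (θ + ε / 2) * (X : ℝ) ^ (θ + ε / 2) :=
              Real.mul_rpow (by norm_num) hX0.le
          _ ≤ (X : ℝ) ^ (ε / 2) * (X : ℝ) ^ (θ + ε / 2) := by gcongr
          _ = (X : ℝ) ^ (θ + ε) := by
              rw [← Real.rpow_add hX0]
              congr 1
              ring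
      exact mul_le_mul hpow hcard (Nat.cast_nonneg _) (by positivity)
  have hdy := dyadic_add Q δ hδ2 (s + 1) X (by
      intro Y hY hYX
      have hY3 : 1 ≤ Y := by omega
      have hYr : (0 : ℝ) < Y := by exact_mod_cast hY3
      set S := (Finset.Ioc Y (2 * Y)).filter Q with hS
      set A := (Finset.Ioc Y (2 * Y)).filter (fun D => IsFund D ∧ BadF a (θ + ε / 2) P' Y D) with hA
      set B := (Finset.Ioc (4 * Y) (2 * (4 * Y))).filter
        (fun D => IsFund D ∧ BadF a (θ + ε / 2) P' (4 * Y) D) with hB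
      have hA' := hZ0 Y (by omega) P' (hP1 Y hY (by omega)) (hP2 Y hY (by omega))
      have hB' := hZ0 (4 * Y) (by omega) P' (hP1 (4 * Y) (by omega) (by omega))
        (hP2 (4 * Y) (by omega) (by omega))
      have hinj : S.card ≤ (A ∪ B).card := by
        refine Finset.card_le_card_of_injOn Dof ?_ ?_
        · intro d hd
          rw [Finset.mem_coe] at hd ⊢
          obtain ⟨h1, h2⟩ := Finset.mem_filter.1 hd
          obtain ⟨h4, h5⟩ := Finset.mem_Ioc.1 h1
          rw [Finset.mem_union]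
          by_cases h : d % 4 = 1
          · left
            have hDof : Dof d = d := by unfold Dof; rw [if_pos h]
            have hk := key d (by omega) h2 Y hY (by omega)
            rw [hA, Finset.mem_filter, Finset.mem_Ioc]
            exact ⟨by rw [hDof]; exact ⟨h4, h5⟩, hk⟩
          · right
            have hDof : Dof d = 4 * d := by unfold Dof; rw [if_neg h]
            have hk := key d (by omega) h2 (4 * Y) (by omega) (by omega)
            rw [hB, Finset.mem_filter, Finset.mem_Ioc]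
            exact ⟨by rw [hDof]; omega, hk⟩
        · intro d _ d' _ hdd
          unfold Dof at hdd
          split_ifs at hdd <;> omega
      have h1 : (S.card : ℝ) ≤ A.card + B.card := by
        exact_mod_cast hinj.trans (Finset.card_union_le _ _)
      have h4Y : (((4 * Y : ℕ) : ℝ)) ^ (1 - δ) ≤ 4 * (Y : ℝ) ^ (1 - δ) := by
        push_cast
        rw [Real.mul_rpow (by norm_num) hYr.le]
        apply mul_le_mul_of_nonneg_right _ (by positivity)
        calc (4 : ℝ) ^ (1 - δ) ≤ (4 : ℝ) ^ (1 : ℝ) :=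
              Real.rpow_le_rpow_of_exponent_le (by norm_num) (by linarith)
          _ = 4 := Real.rpow_one 4
      have h5 : (S.card : ℝ) ≤ 5 * (Y : ℝ) ^ (1 - δ) := by linarith
      convert h5) X le_rfl
  have hdy' : (((Finset.Icc 2 X).filter (fun d => Squarefree d ∧
        ¬ GoodF P ((X : ℝ) ^ (θ + ε)) (L / Real.log L) d)).card : ℝ) ≤
      (2 * ((s + 1 : ℕ) : ℝ) + 3) + 25 * (X : ℝ) ^ (1 - δ) := by
    convert hdy
  refine hdy'.trans ?_
  have hsr : (s : ℝ) ≤ (X : ℝ) ^ (1 / 2 : ℝ) := by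
    rw [← Real.sqrt_eq_rpow]
    apply Real.le_sqrt_of_sq_le
    exact_mod_cast hs3
  have h1 : (X : ℝ) ^ (1 - δ) ≤ (X : ℝ) ^ (1 - δ / 2) / 50 := by
    rw [le_div_iff₀ (by norm_num)]
    calc (X : ℝ) ^ (1 - δ) * 50 ≤ (X : ℝ) ^ (1 - δ) * (X : ℝ) ^ (δ / 2) := by gcongr
      _ = (X : ℝ) ^ (1 - δ / 2) := by rw [← Real.rpow_add hX0]; congr 1; ring
  have h2 : (X : ℝ) ^ (1 / 2 : ℝ) ≤ (X : ℝ) ^ (1 - δ / 2) / 100 := by
    rw [le_div_iff₀ (by norm_num)]
    calc (X : ℝ) ^ (1 / 2 : ℝ) * 100 ≤ (X : ℝ) ^ (1 / 2 : ℝ) * (X : ℝ) ^ (1 / 4 : ℝ) := by gcongr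
      _ = (X : ℝ) ^ (1 / 2 + 1 / 4 : ℝ) := by rw [← Real.rpow_add hX0]
      _ ≤ (X : ℝ) ^ (1 - δ / 2) := Real.rpow_le_rpow_of_exponent_le hXr (by linarith)
  have h3 : (1 : ℝ) ≤ (X : ℝ) ^ (1 / 2 : ℝ) := Real.one_le_rpow hXr (by norm_num)
  push_cast
  linarith

end Pool.Agent.W24.NC
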