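import Pool.Agent.W24.NC.Fix

/-!
# Fixed sets of small primes: the theorem
-/

set_option autoImplicit false

namespace Pool.Agent.W24.NC

open Finset Filter NumberField Pool.Agent.H38R2.CG Pool.Agent.H38R2.CG2 Pool.Agent.H38R2.CG3
open Pool.Agent.R345.IX (high_card SD_nonneg Lone_le Dof isFund_Dof Qz_two floor_two
  choose_cmp low_set chi_odd)
open scoped Classical

/-- few exceptional discriminants in a dyadic interval -/
theorem count_badF (hN0 : P_N0) (hSPL : P_SPL) (hN1 : P_N1) (hN3 : P_N3) (h4 : P_N4) (hKF : P_KF)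
    (h5b : P_N5b) (hN6 : P_N6) (hN3a : P_N3a) (hPV' : P_PV) (a c : ℝ) (ha : 1 < a) (hc : 1 / a < c)
    (hc1 : c ≤ 1) (ε : ℝ) (hε : 0 < ε) : ∃ δ : ℝ, 0 < δ ∧ δ ≤ 1 / 2 ∧ ∃ X0 : ℕ, ∀ X ≥ X0,
    ∀ P : Finset ℕ, (∀ p ∈ P, p.Prime ∧ p ≠ 2 ∧ (p : ℝ) ≤ (2 * Real.log X) ^ a) →
      (Real.log X / 2) ^ (a * c) / 2 ≤ (P.card : ℝ) →
    (((Finset.Ioc X (2 * X)).filter (fun D => IsFund D ∧
      BadF a (max 0 (1 / 2 - c + 1 / a) + ε) P X D)).card : ℝ) ≤ (X : ℝ) ^ (1 - δ) := by
  obtain ⟨C, hC, hLone⟩ := Lone_le hN3a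
  obtain ⟨C', hC', hPV⟩ := hPV'
  have ha0 : 0 < a := by linarith
  have hc0 : 0 < c := lt_trans (by positivity) hc
  have hac : 1 < a * c := by
    rw [div_lt_iff₀ ha0] at hc
    linarith
  set θ : ℝ := max 0 (1 / 2 - c + 1 / a) with hθ
  set γ : ℝ := c - 1 / a with hγ
  have hγ0 : 0 < γ := by rw [hγ]; linarith
  have hγ1 : γ ≤ 1 := by
    have : 0 < 1 / a := by positivity
    rw [hγ]; linarith
  set η : ℝ := min (ε / (a + 9)) (γ / (64 * a)) with hη
  have hηpos : 0 < η := lt_min (by positivity) (by positivity)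
  have hη1 : (a + 9) * η ≤ ε := by
    have : η ≤ ε / (a + 9) := min_le_left _ _
    rw [le_div_iff₀ (by linarith)] at this
    linarith
  have hη2 : η * (64 * a) ≤ γ := by
    have : η ≤ γ / (64 * a) := min_le_right _ _
    rwa [le_div_iff₀ (by linarith)] at this
  have hη64 : 64 * η ≤ γ := by nlinarith
  have hη3 : η ≤ 1 / 8 := by linarith
  refine ⟨η / 2, by positivity, by linarith, ?_⟩
  rw [← Filter.eventually_atTop]
  have h2a : (1 : ℝ) ≤ 2 ^ a := Real.one_le_rpow (by norm_num) ha0.le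
  have hpar := params a 1 η (400 * 2 ^ a) ha one_pos le_rfl hηpos (by linarith) 16
  have hlog1 := ERRh.ev_log (η / 2) (by positivity)
  have hk1 := ERRh.ev_const (η / 2) (by positivity) 4096
  have hk2 := ERRh.ev_const (η / 2) (by positivity) (max (2 * C) 64)
  have hk3 := ERRh.ev_const (1 / 8) (by norm_num) C'
  have hlog2 := ERRh.ev_log (1 / 8) (by norm_num)
  have hs := ev_log _ (ev_pow 1 (a * c) (1 / 2) 160 (by norm_num) (by norm_num) (by norm_num) hac)
  have h2L := ev_log _ (eventually_ge_atTop (2 : ℝ))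
  filter_upwards [hpar, hlog1, hk1, hk2, hk3, hlog2, hs, h2L, eventually_ge_atTop 1] with X hX hl1
    hk1 hk2 hk3 hl2 hs hL2 hX1 P hP hPc
  obtain ⟨-, q1, q2, q3, q4, q5, q6, q7, q8, q9, q10⟩ := hX
  have hXr : (1 : ℝ) ≤ X := by exact_mod_cast hX1
  have hX0 : (0 : ℝ) < X := by linarith
  set L : ℝ := Real.log X with hL
  have hL0 : 0 < L := by linarith
  set k := kk a 1 X with hk
  set y := yy a X with hy
  rw [Real.rpow_one, one_div_mul_eq_div] at hs
  have hkL : (k : ℝ) ≤ L := by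
    refine q10.trans ?_
    apply div_le_self hL0.le
    nlinarith
  have h20' : (80 : ℝ) * (1 + 2 * L) ≤ P.card := by linarith
  have h20 : 20 * k ≤ P.card := by
    have h1 : (20 : ℝ) * k ≤ P.card := by linarith
    exact_mod_cast h1
  have hPy : ∀ p ∈ P, p.Prime ∧ p ≠ 2 ∧ p ≤ y := by
    intro p hp
    obtain ⟨g1, g2, g3⟩ := hP p hp
    exact ⟨g1, g2, Nat.le_floor g3⟩
  have hhalf : (X : ℝ) ^ (η / 2) * (X : ℝ) ^ (η / 2) = (X : ℝ) ^ η := by
    rw [← Real.rpow_add hX0]; congr 1; ring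
  have hXh : 0 < (X : ℝ) ^ (η / 2) := Real.rpow_pos_of_pos hX0 _
  have hXη : 0 < (X : ℝ) ^ η := Real.rpow_pos_of_pos hX0 _
  have hXh1 : 1 ≤ (X : ℝ) ^ (η / 2) := Real.one_le_rpow hXr (by positivity)
  set j := k / 4 with hj
  have hj4 : 4 ≤ j := by omega
  set m := P.card / (2 * j) with hm
  have hjk : 4 * j ≤ k := by omega
  have hkj : k ≤ 8 * j := by omega
  -- size of m
  have hm1 : 1 ≤ m := by
    rw [hm, Nat.one_le_div_iff (by omega)]
    omega
  have hmge : (P.card : ℝ) / (4 * j) ≤ m := by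
    have h1 : P.card < 2 * j * (m + 1) := by
      rw [hm]
      exact Nat.lt_mul_div_succ _ (by omega)
    have h2 : (P.card : ℝ) < 2 * j * (m + 1) := by exact_mod_cast h1
    have hm1' : (1 : ℝ) ≤ m := by exact_mod_cast hm1
    have hj0 : (0 : ℝ) < j := by
      have : 0 < j := by omega
      exact_mod_cast this
    rw [div_le_iff₀ (by positivity)]
    nlinarith
  have hjr : (4 : ℝ) * j ≤ L := by
    have h1 : (4 : ℝ) * j ≤ k := by exact_mod_cast hjk
    linarith
  have hj0 : (0 : ℝ) < j := by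
    have : 0 < j := by omega
    exact_mod_cast this
  have hmge2 : L ^ (a * c - 1) / (2 * 2 ^ a) ≤ m := by
    refine le_trans ?_ hmge
    have h1 : (L / 2) ^ (a * c) / 2 / L ≤ (P.card : ℝ) / (4 * j) := by
      apply div_le_div₀ (Nat.cast_nonneg _) hPc (by positivity) hjr
    refine le_trans ?_ h1
    have h6 : (2 : ℝ) ^ (a * c) ≤ 2 ^ a :=
      Real.rpow_le_rpow_of_exponent_le (by norm_num) (by nlinarith)
    calc L ^ (a * c - 1) / (2 * 2 ^ a) = L ^ (a * c) / (2 * 2 ^ a) / L := by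
          rw [Real.rpow_sub_one hL0.ne']
          ring
      _ ≤ (L / 2) ^ (a * c) / 2 / L := by
          apply div_le_div_of_nonneg_right _ hL0.le
          rw [Real.div_rpow hL0.le (by norm_num), div_div]
          apply div_le_div_of_nonneg_left (by positivity) (by positivity)
          nlinarith
  -- lower bound for a power of m
  have hmj : (X : ℝ) ^ (γ / 16) ≤ (m : ℝ) ^ j := by
    have hm1' : (1 : ℝ) ≤ m := by exact_mod_cast hm1
    have h1 : (X : ℝ) ^ (γ / 2) ≤ (m : ℝ) ^ k := by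
      have h2 : (L ^ (a * c - 1) / (2 * 2 ^ a)) ^ k ≤ (m : ℝ) ^ k :=
        pow_le_pow_left₀ (by positivity) hmge2 k
      refine le_trans ?_ h2
      rw [div_pow, le_div_iff₀ (by positivity)]
      have h6 : (L ^ (a * c - 1)) ^ k = (L ^ k) ^ (a * c - 1) := by
        rw [← Real.rpow_natCast (L ^ (a * c - 1)) k, ← Real.rpow_mul hL0.le,
          ← Real.rpow_natCast L k, ← Real.rpow_mul hL0.le]
        congr 1
        ring
      rw [h6]
      have h7 : (2 * 2 ^ a : ℝ) ^ k ≤ (X : ℝ) ^ η :=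
        (pow_le_pow_left₀ (by positivity) (by linarith) k).trans q6
      calc (X : ℝ) ^ (γ / 2) * (2 * 2 ^ a) ^ k ≤ (X : ℝ) ^ (γ / 2) * (X : ℝ) ^ η := by gcongr
        _ = (X : ℝ) ^ (γ / 2 + η) := by rw [← Real.rpow_add hX0]
        _ ≤ (X : ℝ) ^ ((1 / a - η) * (a * c - 1)) := by
          apply Real.rpow_le_rpow_of_exponent_le hXr
          have h8 : (1 / a - η) * (a * c - 1) = γ - η * (a * c - 1) := by
            rw [hγ]
            field_simp
          rw [h8]
          have h9 : η * (a * c - 1) ≤ η * a := by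
            apply mul_le_mul_of_nonneg_left _ hηpos.le
            nlinarith
          have h10 : η ≤ η * a := by nlinarith
          nlinarith
        _ = ((X : ℝ) ^ (1 / a - η)) ^ (a * c - 1) := by rw [Real.rpow_mul hX0.le]
        _ ≤ (L ^ k) ^ (a * c - 1) :=
          Real.rpow_le_rpow (by positivity) q7 (by linarith)
    have h2 : (m : ℝ) ^ k ≤ ((m : ℝ) ^ j) ^ 8 := by
      rw [← pow_mul]
      exact pow_le_pow_right₀ hm1' (by omega)
    have h3 : ((X : ℝ) ^ (γ / 16)) ^ 8 ≤ ((m : ℝ) ^ j) ^ 8 := by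
      refine le_trans (le_of_eq ?_) (h1.trans h2)
      rw [← Real.rpow_natCast, ← Real.rpow_mul hX0.le]
      congr 1
      push_cast
      ring
    exact le_of_pow_le_pow_left₀ (by norm_num) (by positivity) h3
  -- the two exceptional sets for each residue class
  let Low : ℕ → Finset ℕ := fun r => (DD 2 r X 1).filter
    (fun D : ℕ => ∑ p ∈ P, (1 + ((jacobiSym (D : ℤ) p : ℤ) : ℝ)) < (j : ℝ) * m / 2)
  let High : ℕ → Finset ℕ := fun r => (DD 2 r X 1).filter
    (fun D : ℕ => (X : ℝ) ^ (4 * η) * (((P.powersetCard k).card : ℝ) +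
      ((P.powersetCard k).card : ℝ) ^ 2 / √(X : ℝ)) < SD D (P.powersetCard k) (fun _ => 1))
  have hcardS0 : 0 < (P.powersetCard k).card := by
    rw [Finset.card_powersetCard]
    exact Nat.choose_pos (by omega)
  have hA16 : ∀ t : ℕ, t ≤ k → (16 : ℝ) ^ t ≤ (X : ℝ) ^ η := by
    intro t ht
    calc (16 : ℝ) ^ t ≤ (16 : ℝ) ^ k := pow_le_pow_right₀ (by norm_num) ht
      _ ≤ (400 * 2 ^ a) ^ k := pow_le_pow_left₀ (by norm_num) (by linarith) _
      _ ≤ _ := q6
  -- cardinality of Low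
  have hLow : ∀ r < Qz 2, ((Low r).card : ℝ) ≤ 2 * (X : ℝ) ^ (1 - η) := by
    intro r hr
    have h1 := low_set C' hC' hPV r X m j y hr P hPy hm1 (by
      rw [hm]
      exact Nat.mul_div_le _ _) (by omega)
    refine h1.trans ?_
    have h16 : (16 : ℝ) ^ j ≤ (X : ℝ) ^ η := hA16 j (by omega)
    have hmj' : X / (m : ℝ) ^ j ≤ (X : ℝ) ^ (1 - γ / 16) := by
      have hmjpos : 0 < (m : ℝ) ^ j := lt_of_lt_of_le (Real.rpow_pos_of_pos hX0 _) hmj
      rw [div_le_iff₀ hmjpos]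
      calc (X : ℝ) = (X : ℝ) ^ (1 - γ / 16) * (X : ℝ) ^ (γ / 16) := by
            rw [← Real.rpow_add hX0]
            rw [show (1 - γ / 16 + γ / 16 : ℝ) = 1 by ring, Real.rpow_one]
        _ ≤ (X : ℝ) ^ (1 - γ / 16) * (m : ℝ) ^ j := by gcongr
    have hy1 : (1 : ℝ) ≤ y := by
      have : 1 ≤ y := by omega
      exact_mod_cast this
    have hYj : (y : ℝ) ^ j ≤ (X : ℝ) ^ (1 / 4 : ℝ) := by
      have h2 : ((y : ℝ) ^ j) ^ 4 ≤ X := by
        rw [← pow_mul]
        refine le_trans (pow_le_pow_right₀ hy1 (show j * 4 ≤ k by omega)) ?_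
        rw [Real.rpow_one] at q5
        exact q5
      have h3 : (0 : ℝ) ≤ (y : ℝ) ^ j := by positivity
      calc (y : ℝ) ^ j = (((y : ℝ) ^ j) ^ 4) ^ (1 / 4 : ℝ) := by
            rw [← Real.rpow_natCast ((y : ℝ) ^ j) 4, ← Real.rpow_mul h3]
            norm_num
        _ ≤ (X : ℝ) ^ (1 / 4 : ℝ) := Real.rpow_le_rpow (by positivity) h2 (by norm_num)
    have hjl : (2 * j : ℝ) * Real.log y ≤ L := by
      have h2 : Real.log ((y : ℝ) ^ k) ≤ Real.log X := by
        apply Real.log_le_log (by positivity)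
        rw [Real.rpow_one] at q5
        exact q5
      rw [Real.log_pow] at h2
      have h3 : 0 ≤ Real.log y := Real.log_nonneg hy1
      have h5 : (2 * j : ℝ) ≤ k := by
        have : 2 * j ≤ k := by omega
        exact_mod_cast this
      calc (2 * j : ℝ) * Real.log y ≤ k * Real.log y := by gcongr
        _ ≤ _ := h2
    have hjl0 : 0 ≤ (2 * j : ℝ) * Real.log y := by
      have h3 : 0 ≤ Real.log y := Real.log_nonneg hy1
      positivity
    have hγ16 : γ / 16 ≤ 1 / 2 := by linarith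
    have hsec : C' * (y : ℝ) ^ j * (2 * j * Real.log y) ≤ (X : ℝ) ^ (1 - γ / 16) := by
      calc C' * (y : ℝ) ^ j * (2 * j * Real.log y)
          ≤ (X : ℝ) ^ (1 / 8 : ℝ) * (X : ℝ) ^ (1 / 4 : ℝ) * (X : ℝ) ^ (1 / 8 : ℝ) := by
            have h6 : L ≤ (X : ℝ) ^ (1 / 8 : ℝ) := by linarith
            gcongr
            exact hjl.trans h6
        _ = (X : ℝ) ^ (1 / 8 + 1 / 4 + 1 / 8 : ℝ) := by
            rw [← Real.rpow_add hX0, ← Real.rpow_add hX0]
        _ ≤ _ := Real.rpow_le_rpow_of_exponent_le hXr (by linarith)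
    calc (16 : ℝ) ^ j * (X / (m : ℝ) ^ j + C' * (y : ℝ) ^ j * (2 * j * Real.log y))
        ≤ (X : ℝ) ^ η * ((X : ℝ) ^ (1 - γ / 16) + (X : ℝ) ^ (1 - γ / 16)) := by
          have h7 : 0 ≤ C' * (y : ℝ) ^ j * (2 * j * Real.log y) := by positivity
          gcongr
      _ = 2 * (X : ℝ) ^ (η + (1 - γ / 16)) := by rw [Real.rpow_add hX0]; ring
      _ ≤ 2 * (X : ℝ) ^ (1 - η) := by
          have := Real.rpow_le_rpow_of_exponent_le hXr
            (show η + (1 - γ / 16) ≤ 1 - η by linarith)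
          linarith
  -- cardinality of High
  have hHigh : ∀ r < Qz 2, ((High r).card : ℝ) ≤ (X : ℝ) ^ (1 - η) := by
    intro r hr
    have hS : ∀ s ∈ P.powersetCard k, (∀ p ∈ s, p.Prime) ∧ s.card = k ∧ prodS s ≤ X := by
      intro s hs
      obtain ⟨hs1, hs2⟩ := Finset.mem_powersetCard.1 hs
      refine ⟨fun p hp => (hPy p (hs1 hp)).1, hs2, ?_⟩
      have h1 : prodS s ≤ y ^ k := by
        unfold prodS
        rw [← hs2]
        exact Finset.prod_le_pow_card _ _ _ fun p hp => (hPy p (hs1 hp)).2.2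
      have h2 : ((y ^ k : ℕ) : ℝ) ≤ X := by
        push_cast
        rw [Real.rpow_one] at q5
        exact q5
      have h3 : y ^ k ≤ X := by exact_mod_cast h2
      exact h1.trans h3
    have h1 := high_card r X k hr hX1 (P.powersetCard k) hS ((X : ℝ) ^ (4 * η))
      (Real.rpow_pos_of_pos hX0 _) hcardS0
    refine h1.trans ?_
    rw [div_le_iff₀ (Real.rpow_pos_of_pos hX0 _), ← Real.rpow_add hX0]
    have h8 : (8 : ℝ) ^ k ≤ (X : ℝ) ^ η :=
      (pow_le_pow_left₀ (by norm_num) (by norm_num) _).trans (hA16 k le_rfl)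
    calc 4096 * 8 ^ k * (1 + Real.log X) * X
        ≤ (X : ℝ) ^ (η / 2) * (X : ℝ) ^ η * (X : ℝ) ^ (η / 2) * X := by gcongr
      _ = (X : ℝ) ^ (η / 2 + η + η / 2 + 1) := by
          rw [Real.rpow_add hX0 _ 1, Real.rpow_one, Real.rpow_add hX0, Real.rpow_add hX0]
      _ ≤ _ := Real.rpow_le_rpow_of_exponent_le hXr (by linarith)
  -- covering
  have hcover : ((Finset.Ioc X (2 * X)).filter (fun D => IsFund D ∧
      BadF a (θ + ε) P X D)) ⊆ (Finset.range 16).biUnion (fun r => Low r ∪ High r) := by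
    intro D hD
    obtain ⟨hD1, hD2, hD3⟩ := Finset.mem_filter.1 hD
    obtain ⟨hDa, hDb⟩ := Finset.mem_Ioc.1 hD1
    rw [Finset.mem_biUnion]
    refine ⟨D % 16, Finset.mem_range.2 (Nat.mod_lt _ (by norm_num)), ?_⟩
    have hDD : D ∈ DD 2 (D % 16) X 1 := by
      unfold DD
      rw [Finset.mem_filter, Finset.mem_Ioc, floor_two, Qz_two]
      exact ⟨⟨hDa, hDb⟩, rfl⟩
    by_contra hcon
    rw [Finset.mem_union, not_or] at hcon
    obtain ⟨hc1', hc2'⟩ := hcon
    have hlow' : (j : ℝ) * m / 2 ≤ ∑ p ∈ P, (1 + ((jacobiSym (D : ℤ) p : ℤ) : ℝ)) := by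
      by_contra h
      exact hc1' (Finset.mem_filter.2 ⟨hDD, not_le.1 h⟩)
    have hhigh' : SD D (P.powersetCard k) (fun _ => 1) ≤ (X : ℝ) ^ (4 * η) *
        (((P.powersetCard k).card : ℝ) + ((P.powersetCard k).card : ℝ) ^ 2 / √(X : ℝ)) := by
      by_contra h
      exact hc2' (Finset.mem_filter.2 ⟨hDD, not_le.1 h⟩)
    rw [Finset.card_powersetCard] at hhigh'
    have hlow5 : ((P.card : ℕ) : ℝ) / 5 ≤ ∑ p ∈ P, (1 + ((jacobiSym (D : ℤ) p : ℤ) : ℝ)) := by
      refine le_trans ?_ hlow'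
      have h1 : P.card < 2 * j * (m + 1) := by
        rw [hm]
        exact Nat.lt_mul_div_succ _ (by omega)
      have h2 : (P.card : ℝ) < 2 * j * (m + 1) := by exact_mod_cast h1
      have h4' : (80 : ℝ) * j ≤ P.card := by linarith
      linarith
    have hnb := not_badF hN0 hSPL hN1 hN3 h4 hKF h5b hN6 a c η θ C ha hc0 hc1 hC hLone
      (le_max_left _ _) (le_max_right _ _) hηpos X D hD2 hDb hX1 hL2 q6 q7 q8 hkL P
      (fun p hp => ⟨(hP p hp).1, (hP p hp).2.1⟩) hPc h20 (by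
        have h2C : 2 * C ≤ (X : ℝ) ^ (η / 2) := (le_max_left _ _).trans hk2
        have h1 : 2 + L ≤ 2 * (1 + L) := by linarith
        calc C * (2 + L) ≤ C * (2 * (1 + L)) := by gcongr
          _ = (2 * C) * (1 + L) := by ring
          _ ≤ (X : ℝ) ^ (η / 2) * (X : ℝ) ^ (η / 2) := by gcongr
          _ = _ := hhalf) (by
        have h64 : (64 : ℝ) ≤ (X : ℝ) ^ (η / 2) := (le_max_right _ _).trans hk2
        nlinarith) hlow5 hhigh'
    apply hnb
    obtain ⟨K, i1, i2, g1, g2, g3⟩ := hD3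
    refine ⟨K, i1, i2, g1, g2, fun hcon => g3 (hcon.trans ?_)⟩
    have : (X : ℝ) ^ (θ + (a + 9) * η) ≤ (X : ℝ) ^ (θ + ε) :=
      Real.rpow_le_rpow_of_exponent_le hXr (by linarith)
    gcongr
  have hfin : ((((Finset.range 16).biUnion (fun r => Low r ∪ High r)).card : ℕ) : ℝ) ≤
      48 * (X : ℝ) ^ (1 - η) := by
    have h1 : (((Finset.range 16).biUnion (fun r => Low r ∪ High r)).card : ℝ) ≤
        ∑ r ∈ Finset.range 16, ((Low r ∪ High r).card : ℝ) := by
      exact_mod_cast Finset.card_biUnion_le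
    refine h1.trans ?_
    have h2 : ∀ r ∈ Finset.range 16, ((Low r ∪ High r).card : ℝ) ≤ 3 * (X : ℝ) ^ (1 - η) := by
      intro r hr
      have hr' : r < Qz 2 := by rw [Qz_two]; exact Finset.mem_range.1 hr
      have h3 : ((Low r ∪ High r).card : ℝ) ≤ (Low r).card + (High r).card := by
        exact_mod_cast Finset.card_union_le _ _
      have := hLow r hr'
      have := hHigh r hr'
      linarith
    refine (Finset.sum_le_sum h2).trans ?_
    rw [Finset.sum_const, Finset.card_range, nsmul_eq_mul]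
    push_cast
    linarith
  have hcard : (((Finset.Ioc X (2 * X)).filter (fun D => IsFund D ∧
      BadF a (θ + ε) P X D)).card : ℝ) ≤
      ((((Finset.range 16).biUnion (fun r => Low r ∪ High r)).card : ℕ) : ℝ) := by
    exact_mod_cast Finset.card_le_card hcover
  refine hcard.trans (hfin.trans ?_)
  have h48 : (48 : ℝ) ≤ (X : ℝ) ^ (η / 2) := by
    have h64 : (64 : ℝ) ≤ (X : ℝ) ^ (η / 2) := (le_max_right _ _).trans hk2
    linarith
  calc 48 * (X : ℝ) ^ (1 - η) ≤ (X : ℝ) ^ (η / 2) * (X : ℝ) ^ (1 - η) := by gcongr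
    _ = (X : ℝ) ^ (1 - η / 2) := by
        rw [← Real.rpow_add hX0]
        congr 1
        ring

end Pool.Agent.W24.NC
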