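import Pool.Agent.W24.NC.Fin

/-!
# Arbitrary sets of small prime ideals: the theorem
-/

set_option autoImplicit false

namespace Pool.Agent.W24.NC

open Finset Filter NumberField Pool.Agent.H38R2.CG Pool.Agent.H38R2.CG2 Pool.Agent.H38R2.CG3
open Pool.Agent.R345.IX (high_card SD_nonneg Lone_le Dof isFund_Dof dyadic Qz_two floor_two)
open scoped Classical

theorem ev_pow (s t b A : ℝ) (hs : 0 ≤ s) (hb : 0 < b) (hA : 0 ≤ A) (hst : s < t) :
    ∀ᶠ L : ℝ in atTop, A * (1 + (2 * L) ^ s) ≤ (b * L) ^ t := by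
  have h1 : ∀ᶠ L : ℝ in atTop, A * (1 + 2 ^ s) / b ^ t ≤ L ^ (t - s) :=
    (tendsto_rpow_atTop (by linarith : 0 < t - s)).eventually (eventually_ge_atTop _)
  filter_upwards [h1, eventually_ge_atTop (1 : ℝ)] with L h2 h3
  have hL0 : 0 < L := by linarith
  have hbt : 0 < b ^ t := Real.rpow_pos_of_pos hb _
  rw [div_le_iff₀ hbt] at h2
  have h4 : 1 ≤ L ^ s := Real.one_le_rpow h3 hs
  have h5 : (b * L) ^ t = L ^ (t - s) * b ^ t * L ^ s := by
    rw [Real.mul_rpow hb.le hL0.le, Real.rpow_sub hL0]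
    field_simp
  rw [Real.mul_rpow (by norm_num) hL0.le, h5]
  calc A * (1 + 2 ^ s * L ^ s) ≤ A * (L ^ s + 2 ^ s * L ^ s) := by gcongr
    _ = (A * (1 + 2 ^ s)) * L ^ s := by ring
    _ ≤ _ := by gcongr

/-- few exceptional discriminants in a dyadic interval -/
theorem count_bad (hN0 : P_N0) (hN1 : P_N1) (hN2 : P_N2) (hN3 : P_N3) (h4 : P_N4) (hKF : P_KF)
    (h5b : P_N5b) (hN6 : P_N6) (hN3a : P_N3a) (a : ℝ) (ha : 1 < a) (ε : ℝ)
    (hε : 0 < ε) : ∃ δ : ℝ, 0 < δ ∧ δ ≤ 1 / 2 ∧ ∃ X0 : ℕ, ∀ X ≥ X0,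
    (((Finset.Ioc X (2 * X)).filter (fun D => IsFund D ∧ BadW a ε X D)).card : ℝ) ≤
      (X : ℝ) ^ (1 - δ) := by
  obtain ⟨C, hC, hLone⟩ := Lone_le hN3a
  have ha0 : 0 < a := by linarith
  set η : ℝ := min (ε / (2 * a + 8)) (1 / 8) with hη
  have hηpos : 0 < η := lt_min (by positivity) (by norm_num)
  have hη1 : (2 * a + 8) * η ≤ ε := by
    have : η ≤ ε / (2 * a + 8) := min_le_left _ _
    rw [le_div_iff₀ (by linarith)] at this
    linarith
  have hη2 : η ≤ 1 / 8 := min_le_right _ _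
  refine ⟨η, hηpos, by linarith, ?_⟩
  rw [← Filter.eventually_atTop]
  have hpar := params a (kap a) η (12 * 2 ^ a) ha (kap_pos a) (kap_le a) hηpos (by
    have : (1 : ℝ) ≤ 2 ^ a := Real.one_le_rpow (by norm_num) ha0.le
    linarith) 1
  have hlog1 := ERRh.ev_log (η / 2) (by positivity)
  have hc1 := ERRh.ev_const (η / 2) (by positivity) 4096
  have hc2 := ERRh.ev_const (η / 2) (by positivity) (max (2 * C) 16)
  have hs := ev_log _ (ev_pow (a / 2) (a / 2 + 1 / 2) (1 / 2) 6 (by linarith) (by norm_num) (by norm_num)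
    (by linarith))
  have hs' := ev_log _ (ev_pow 1 (a / 2 + 1 / 2) (1 / 2) 6 (by norm_num) (by norm_num) (by norm_num)
    (by linarith))
  have h2L := ev_log _ (eventually_ge_atTop (2 : ℝ))
  filter_upwards [hpar, hlog1, hc1, hc2, hs, hs', h2L, eventually_ge_atTop 1] with X hX hl1 hk1 hk2
    hs1 hs2 hL2 hX1
  obtain ⟨-, q1, q2, q3, q4, q5, q6, q7, q8, q9, q10⟩ := hX
  have hXr : (1 : ℝ) ≤ X := by exact_mod_cast hX1
  have hX0 : (0 : ℝ) < X := by linarith
  set L : ℝ := Real.log X with hL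
  have hL0 : 0 < L := by linarith
  set k := kk a (kap a) X with hk
  set Q := QQ a X with hQ
  have hhalf : (X : ℝ) ^ (η / 2) * (X : ℝ) ^ (η / 2) = (X : ℝ) ^ η := by
    rw [← Real.rpow_add hX0]; congr 1; ring
  have hXh : 0 < (X : ℝ) ^ (η / 2) := Real.rpow_pos_of_pos hX0 _
  have hXh1 : 1 ≤ (X : ℝ) ^ (η / 2) := Real.one_le_rpow hXr (by positivity)
  let High : ℕ → Finset ℕ := fun r => (DD 2 r X 1).filter
    (fun D : ℕ => (X : ℝ) ^ (4 * η) * (((Q.powersetCard k).card : ℝ) +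
      ((Q.powersetCard k).card : ℝ) ^ 2 / √(X : ℝ)) < SD D (Q.powersetCard k) (fun _ => 1))
  have h2a : (1 : ℝ) ≤ 2 ^ a := Real.one_le_rpow (by norm_num) ha0.le
  -- cardinality of High
  have hHigh : ∀ r < Qz 2, ((High r).card : ℝ) ≤ (X : ℝ) ^ (1 - 2 * η) := by
    intro r hr
    rcases Nat.eq_zero_or_pos (Q.powersetCard k).card with h0 | h0
    · have hemp : High r = ∅ := by
        apply Finset.filter_eq_empty_iff.2
        intro D _
        rw [Finset.card_eq_zero] at h0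
        have hSD : SD D (Q.powersetCard k) (fun _ => 1) = 0 := by
          unfold SD
          rw [h0]
          simp
        rw [hSD, h0]
        simp
      rw [hemp]
      simp only [Finset.card_empty, Nat.cast_zero]
      positivity
    have hS : ∀ s ∈ Q.powersetCard k, (∀ p ∈ s, p.Prime) ∧ s.card = k ∧ prodS s ≤ X := by
      intro s hs
      obtain ⟨hs1, hs2⟩ := Finset.mem_powersetCard.1 hs
      have hQm : ∀ p ∈ Q, p.Prime ∧ p ≤ yy a X := by
        intro p hp
        rw [hQ] at hp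
        unfold QQ at hp
        rw [Finset.mem_filter, Finset.mem_Icc] at hp
        exact ⟨hp.2.1, hp.1.2⟩
      refine ⟨fun p hp => (hQm p (hs1 hp)).1, hs2, ?_⟩
      have h1 : prodS s ≤ (yy a X) ^ k := by
        unfold prodS
        rw [← hs2]
        exact Finset.prod_le_pow_card _ _ _ fun p hp => (hQm p (hs1 hp)).2
      have h2 : (((yy a X) ^ k : ℕ) : ℝ) ≤ X := by
        push_cast
        refine q5.trans ?_
        calc (X : ℝ) ^ kap a ≤ (X : ℝ) ^ (1 : ℝ) :=
              Real.rpow_le_rpow_of_exponent_le hXr (kap_le a)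
          _ = X := Real.rpow_one _
      have h3 : (yy a X) ^ k ≤ X := by exact_mod_cast h2
      exact h1.trans h3
    have h1 := high_card r X k hr hX1 (Q.powersetCard k) hS ((X : ℝ) ^ (4 * η))
      (Real.rpow_pos_of_pos hX0 _) h0
    refine h1.trans ?_
    rw [div_le_iff₀ (Real.rpow_pos_of_pos hX0 _), ← Real.rpow_add hX0]
    have h8 : (8 : ℝ) ^ k ≤ (X : ℝ) ^ η :=
      (pow_le_pow_left₀ (by norm_num) (by linarith) _).trans q6
    calc 4096 * 8 ^ k * (1 + Real.log X) * X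
        ≤ (X : ℝ) ^ (η / 2) * (X : ℝ) ^ η * (X : ℝ) ^ (η / 2) * X := by gcongr
      _ = (X : ℝ) ^ (η / 2 + η + η / 2 + 1) := by
          rw [Real.rpow_add hX0 _ 1, Real.rpow_one, Real.rpow_add hX0, Real.rpow_add hX0]
      _ ≤ _ := Real.rpow_le_rpow_of_exponent_le hXr (by linarith)
  -- covering
  have hcover : ((Finset.Ioc X (2 * X)).filter (fun D => IsFund D ∧ BadW a ε X D)) ⊆
      (Finset.range 16).biUnion (fun r => High r) := by
    intro D hD
    obtain ⟨hD1, hD2, hD3⟩ := Finset.mem_filter.1 hD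
    obtain ⟨hDa, hDb⟩ := Finset.mem_Ioc.1 hD1
    rw [Finset.mem_biUnion]
    refine ⟨D % 16, Finset.mem_range.2 (Nat.mod_lt _ (by norm_num)), ?_⟩
    have hDD : D ∈ DD 2 (D % 16) X 1 := by
      unfold DD
      rw [Finset.mem_filter, Finset.mem_Ioc, floor_two, Qz_two]
      exact ⟨⟨hDa, hDb⟩, rfl⟩
    by_contra hcon
    have hhigh' : SD D (Q.powersetCard k) (fun _ => 1) ≤ (X : ℝ) ^ (4 * η) *
        (((Q.powersetCard k).card : ℝ) + ((Q.powersetCard k).card : ℝ) ^ 2 / √(X : ℝ)) := by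
      by_contra h
      exact hcon (Finset.mem_filter.2 ⟨hDD, not_le.1 h⟩)
    rw [Finset.card_powersetCard] at hhigh'
    have hkL : (k : ℝ) ≤ L := by
      refine q10.trans ?_
      apply div_le_self hL0.le
      nlinarith
    have hnb := not_bad hN0 hN1 hN2 hN3 h4 hKF h5b hN6 a η C ha hC hLone hηpos X D hD2 hDb hX1 hL2
      q6 q5 q7 q8 hkL (by
        have := hs1
        rw [one_div_mul_eq_div] at this
        exact this) (by
        have := hs2
        rw [Real.rpow_one, one_div_mul_eq_div] at this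
        linarith) (by
        have h2C : 2 * C ≤ (X : ℝ) ^ (η / 2) := (le_max_left _ _).trans hk2
        have h1 : 2 + L ≤ 2 * (1 + L) := by linarith
        calc C * (2 + L) ≤ C * (2 * (1 + L)) := by gcongr
          _ = (2 * C) * (1 + L) := by ring
          _ ≤ (X : ℝ) ^ (η / 2) * (X : ℝ) ^ (η / 2) := by gcongr
          _ = _ := hhalf) (by
        have h16 : (16 : ℝ) ≤ (X : ℝ) ^ (η / 2) := (le_max_right _ _).trans hk2
        nlinarith) hhigh'
    apply hnb
    obtain ⟨K, i1, i2, g1, g2, c, g3, g4, W, g5, g6, g7⟩ := hD3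
    refine ⟨K, i1, i2, g1, g2, c, g3, g4, W, g5, g6, fun hcon => g7 (hcon.trans ?_)⟩
    have : (X : ℝ) ^ (EE a c + (2 * a + 8) * η) ≤ (X : ℝ) ^ (EE a c + ε) :=
      Real.rpow_le_rpow_of_exponent_le hXr (by linarith)
    gcongr
  have hfin : ((((Finset.range 16).biUnion (fun r => High r)).card : ℕ) : ℝ) ≤
      16 * (X : ℝ) ^ (1 - 2 * η) := by
    have h1 : (((Finset.range 16).biUnion (fun r => High r)).card : ℝ) ≤
        ∑ r ∈ Finset.range 16, ((High r).card : ℝ) := by
      exact_mod_cast Finset.card_biUnion_le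
    refine h1.trans ?_
    have h2 : ∀ r ∈ Finset.range 16, ((High r).card : ℝ) ≤ (X : ℝ) ^ (1 - 2 * η) := by
      intro r hr
      have hr' : r < Qz 2 := by rw [Qz_two]; exact Finset.mem_range.1 hr
      exact hHigh r hr'
    refine (Finset.sum_le_sum h2).trans ?_
    rw [Finset.sum_const, Finset.card_range, nsmul_eq_mul]
    push_cast
    exact le_rfl
  have hcard : (((Finset.Ioc X (2 * X)).filter (fun D => IsFund D ∧ BadW a ε X D)).card : ℝ) ≤
      ((((Finset.range 16).biUnion (fun r => High r)).card : ℕ) : ℝ) := by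
    exact_mod_cast Finset.card_le_card hcover
  refine hcard.trans (hfin.trans ?_)
  have h16 : (16 : ℝ) ≤ (X : ℝ) ^ (η / 2) := (le_max_right _ _).trans hk2
  calc 16 * (X : ℝ) ^ (1 - 2 * η) ≤ (X : ℝ) ^ (η / 2) * (X : ℝ) ^ (1 - 2 * η) := by gcongr
    _ = (X : ℝ) ^ (η / 2 + (1 - 2 * η)) := by rw [← Real.rpow_add hX0]
    _ ≤ _ := Real.rpow_le_rpow_of_exponent_le hXr (by linarith)

/-- the property of the radicand, for sets of prime ideals -/
def GoodN (a ε : ℝ) (d : ℕ) : Prop :=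
  ∀ (K : Type) [Field K] [NumberField K], Module.finrank ℚ K = 2 → (∃ x : K, x ^ 2 = (d : K)) →
    ∀ c : ℝ, 1 / 2 + 1 / (2 * a) ≤ c → c ≤ 1 →
    ∀ W : Set (nonZeroDivisors (Ideal (𝓞 K))),
      (∀ J ∈ W, (J : Ideal (𝓞 K)).IsPrime ∧
        ((Ideal.absNorm (J : Ideal (𝓞 K)) : ℕ) : ℝ) ≤ (Real.log d) ^ a) →
      (Real.log d) ^ (a * c) ≤ (W.ncard : ℝ) →
      (Nat.card (ClassGroup (𝓞 K)) : ℝ) ≤ (d : ℝ) ^ (EE a c + ε) *
        ((Products K W (Real.log d / Real.log (Real.log d))).ncard : ℝ)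

theorem products_mono {K : Type} [Field K] [NumberField K]
    {W : Set (nonZeroDivisors (Ideal (𝓞 K)))} {n n' : ℝ} (hn : n ≤ n') :
    Products K W n ⊆ Products K W n' := by
  rintro C ⟨L, h1, h2, h3⟩
  exact ⟨L, h1, h2.trans hn, h3⟩

/-- the number of factors is small enough -/
theorem few (a : ℝ) (ha : 1 < a) : ∀ᶠ X : ℕ in atTop, ∀ d : ℕ, X ≤ 4 * d → d ≤ 2 * X →
    (kk a (kap a) X : ℝ) ≤ Real.log d / Real.log (Real.log d) ∧
    Real.log d ≤ 2 * Real.log X ∧ Real.log X / 2 ≤ Real.log d ∧ 1 < d := by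
  have hpar := params a (kap a) 1 1 ha (kap_pos a) (kap_le a) one_pos le_rfl 1
  have h2L := ev_log _ (eventually_ge_atTop (max 8 (2 / (1 - 1 / a))))
  filter_upwards [hpar, h2L, eventually_ge_atTop 8] with X hX hL hX8 d hd1 hd2
  obtain ⟨-, q1, q2, q3, q4, q5, q6, q7, q8, q9, q10⟩ := hX
  set L : ℝ := Real.log X with hLdef
  have hL8 : 8 ≤ L := (le_max_left _ _).trans hL
  have hLa : 2 / (1 - 1 / a) ≤ L := (le_max_right _ _).trans hL
  have hX0 : (0 : ℝ) < X := by
    have : 0 < X := by omega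
    exact_mod_cast this
  have hd0 : 0 < d := by omega
  have hdr : (0 : ℝ) < d := by exact_mod_cast hd0
  have hlog4 : Real.log 4 ≤ 2 := by
    rw [show (4 : ℝ) = 2 ^ 2 by norm_num, Real.log_pow]
    have := Real.log_two_lt_d9
    push_cast
    linarith
  have h1 : L ≤ 2 + Real.log d := by
    have h2 : Real.log X ≤ Real.log (4 * d) := by
      apply Real.log_le_log hX0
      exact_mod_cast hd1
    rw [Real.log_mul (by norm_num) hdr.ne'] at h2
    linarith
  have h2 : Real.log d ≤ 1 + L := by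
    have h3 : Real.log d ≤ Real.log (2 * X) := by
      apply Real.log_le_log hdr
      exact_mod_cast hd2
    rw [Real.log_mul (by norm_num) hX0.ne'] at h3
    have := Real.log_two_lt_d9
    linarith
  have h3 : 1 < d := by omega
  refine ⟨?_, by linarith, by linarith, h3⟩
  set t := Real.log d with ht
  have ht1 : L - 2 ≤ t := by linarith
  have hexp : Real.exp 1 ≤ 3 := by have := Real.exp_one_lt_d9; linarith
  have hanti := Real.log_div_self_antitoneOn (show Real.exp 1 ≤ L - 2 by linarith)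
    (show Real.exp 1 ≤ t by linarith) ht1
  have hl0 : 0 < Real.log (L - 2) := Real.log_pos (by linarith)
  have hlt0 : 0 < Real.log t := Real.log_pos (by linarith)
  have h4 : (L - 2) / Real.log (L - 2) ≤ t / Real.log t := by
    rw [div_le_div_iff₀ hl0 hlt0]
    have h5 : Real.log t / t ≤ Real.log (L - 2) / (L - 2) := hanti
    rw [div_le_div_iff₀ (by linarith) (by linarith)] at h5
    linarith
  refine q10.trans (le_trans ?_ h4)
  have h5 : Real.log (L - 2) ≤ Real.log L := Real.log_le_log (by linarith) (by linarith)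
  have h6 : (L - 2) / Real.log L ≤ (L - 2) / Real.log (L - 2) :=
    div_le_div_of_nonneg_left (by linarith) hl0 h5
  refine le_trans ?_ h6
  have ha0 : 0 < a := by linarith
  have h7 : 0 < 1 - 1 / a := by
    rw [sub_pos, div_lt_one ha0]
    exact ha
  rw [div_le_iff₀ h7] at hLa
  have h8 : L / a ≤ L - 2 := by
    have : L * (1 - 1 / a) = L - L / a := by ring
    linarith
  rw [← div_div]
  gcongr

/-- All but `O(X^(1-δ))` radicands up to `X` are good. -/
theorem main (a : ℝ) (ha : 1 < a) (ε : ℝ) (hε : 0 < ε) : ∃ δ C : ℝ, 0 < δ ∧ 0 < C ∧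
    ∀ X : ℕ, (((Finset.Icc 2 X).filter (fun d => Squarefree d ∧
      ¬ GoodN a ε d)).card : ℝ) ≤ C * (X : ℝ) ^ (1 - δ) := by
  have h_P_N0 : P_N0 := T_N0
  have h_P_N0d : P_N0d := T_N0d
  have h_P_SPL : P_SPL := T_SPL h_P_N0
  have h_P_N1 : P_N1 := T_N1 h_P_SPL
  have h_P_N2 : P_N2 := T_N2 h_P_SPL
  have h_P_KR : P_KR := T_KR
  have h_P_PV : P_PV := T_PV
  have h_P_N3a : P_N3a := T_N3a h_P_KR h_P_PV
  have h_P_N3b : P_N3b := T_N3b h_P_KR h_P_PV h_P_N3a
  have h_P_N3 : P_N3 := T_N3 h_P_N2 h_P_N3b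
  have h_P_N4a : P_N4a := T_N4a
  have h_P_N4b : P_N4b := T_N4b
  have h_P_N4 : P_N4 := T_N4 h_P_N4a h_P_N4b
  have h_P_KF : P_KF := T_KF
  have h_P_N5b : P_N5b := T_N5b h_P_KF h_P_N4
  have h_P_N6 : P_N6 := T_N6 h_P_KF
  obtain ⟨δ, hδ, hδ2, X0, hX0⟩ := count_bad h_P_N0 h_P_N1 h_P_N2 h_P_N3 h_P_N4 h_P_KF h_P_N5b
    h_P_N6 h_P_N3a a ha (ε / 2) (by positivity)
  have ha0 : 0 < a := by linarith
  obtain ⟨X1, hX1⟩ := Filter.eventually_atTop.1 (few a ha)
  obtain ⟨X2, hX2⟩ := Filter.eventually_atTop.1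
    (ERRh.ev_const (ε / 2) (by positivity) ((4 : ℝ) ^ (1 / 2 + ε / 2)))
  -- a bad radicand gives a bad discriminant
  have key : ∀ Y : ℕ, X0 ≤ Y → X1 ≤ Y → X2 ≤ Y → 1 ≤ Y → ∀ d : ℕ, Y < d → d ≤ 2 * Y →
      Squarefree d → ¬ GoodN a ε d → ∀ X : ℕ, X1 ≤ X → X ≤ 4 * d → d ≤ 2 * X →
      X ≤ 4 * Y →
      IsFund (Dof d) ∧ BadW a (ε / 2) X (Dof d) := by
    intro Y _ _ hY2 hY1 d hd1 hd2 hsq hbad X hXX1 hX4 hdX hX4Y
    have hd : 1 < d := by omega
    refine ⟨isFund_Dof hd hsq, ?_⟩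
    unfold GoodN at hbad
    push Not at hbad
    obtain ⟨K, i1, i2, h2, hx, c, hc1, hc2, W, hW, hWc, hlt⟩ := hbad
    obtain ⟨g1, g2, g3, -⟩ := hX1 X hXX1 d hX4 hdX
    have hdr : (0 : ℝ) < d := by
      have : 0 < d := by omega
      exact_mod_cast this
    have hlogd : 0 ≤ Real.log d := Real.log_natCast_nonneg d
    have hlogX : 0 ≤ Real.log X := Real.log_natCast_nonneg X
    refine ⟨K, i1, i2, h2, ?_, c, hc1, hc2, W, ?_, ?_, ?_⟩
    · rw [h_P_N0d K d hd hsq h2 hx]
      unfold Dof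
      split_ifs <;> push_cast <;> rfl
    · intro J hJ
      refine ⟨(hW J hJ).1, (hW J hJ).2.trans ?_⟩
      exact Real.rpow_le_rpow hlogd g2 ha0.le
    · refine le_trans ?_ hWc
      apply Real.rpow_le_rpow (by positivity) g3
      have : 0 < 1 / (2 * a) := by positivity
      have : 0 ≤ c := by linarith
      positivity
    · intro hle
      refine absurd hle (not_le.2 (lt_of_le_of_lt ?_ hlt))
      have hsub : Products K W (kk a (kap a) X : ℝ) ⊆
          Products K W (Real.log d / Real.log (Real.log d)) := products_mono g1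
      have hcard : ((Products K W (kk a (kap a) X : ℝ)).ncard : ℝ) ≤
          ((Products K W (Real.log d / Real.log (Real.log d))).ncard : ℝ) := by
        exact_mod_cast Set.ncard_le_ncard hsub (Set.toFinite _)
      have hE0 := EE_nonneg a c ha hc2
      have hE1 := EE_le a c ha hc1
      have hpow : (X : ℝ) ^ (EE a c + ε / 2) ≤ (d : ℝ) ^ (EE a c + ε) := by
        have h4d : (4 : ℝ) ^ (1 / 2 + ε / 2) ≤ (d : ℝ) ^ (ε / 2) := hX2 d (by omega)
        calc (X : ℝ) ^ (EE a c + ε / 2) ≤ (4 * (d : ℝ)) ^ (EE a c + ε / 2) := by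
              apply Real.rpow_le_rpow (Nat.cast_nonneg _) _ (by positivity)
              exact_mod_cast hX4
          _ = (4 : ℝ) ^ (EE a c + ε / 2) * (d : ℝ) ^ (EE a c + ε / 2) :=
              Real.mul_rpow (by norm_num) hdr.le
          _ ≤ (4 : ℝ) ^ (1 / 2 + ε / 2) * (d : ℝ) ^ (EE a c + ε / 2) := by
              apply mul_le_mul_of_nonneg_right _ (by positivity)
              exact Real.rpow_le_rpow_of_exponent_le (by norm_num) (by linarith)
          _ ≤ (d : ℝ) ^ (ε / 2) * (d : ℝ) ^ (EE a c + ε / 2) := by gcongr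
          _ = (d : ℝ) ^ (EE a c + ε) := by
              rw [← Real.rpow_add hdr]
              congr 1
              ring
      exact mul_le_mul hpow hcard (Nat.cast_nonneg _) (by positivity)
  have hdy := dyadic (fun S => (S.filter (fun d => Squarefree d ∧ ¬ GoodN a ε d)).card)
    (fun d => Squarefree d ∧ ¬ GoodN a ε d) (fun S => by congr) δ hδ hδ2
    (max (max X0 X1) (max X2 1)) (by
      intro Y hY
      have hY0 : X0 ≤ Y := le_trans (le_trans (le_max_left _ _) (le_max_left _ _)) hY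
      have hY1 : X1 ≤ Y := le_trans (le_trans (le_max_right _ _) (le_max_left _ _)) hY
      have hY2 : X2 ≤ Y := le_trans (le_trans (le_max_left _ _) (le_max_right _ _)) hY
      have hY3 : 1 ≤ Y := le_trans (le_trans (le_max_right _ _) (le_max_right _ _)) hY
      have hYr : (0 : ℝ) < Y := by exact_mod_cast hY3
      set S := (Finset.Ioc Y (2 * Y)).filter (fun d => Squarefree d ∧ ¬ GoodN a ε d) with hS
      set A := (Finset.Ioc Y (2 * Y)).filter (fun D => IsFund D ∧ BadW a (ε / 2) Y D) with hA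
      set B := (Finset.Ioc (4 * Y) (2 * (4 * Y))).filter
        (fun D => IsFund D ∧ BadW a (ε / 2) (4 * Y) D) with hB
      have hA' := hX0 Y hY0
      have hB' := hX0 (4 * Y) (by omega)
      have hinj : S.card ≤ (A ∪ B).card := by
        refine Finset.card_le_card_of_injOn Dof ?_ ?_
        · intro d hd
          rw [Finset.mem_coe] at hd ⊢
          obtain ⟨h1, h2, h3⟩ := Finset.mem_filter.1 hd
          obtain ⟨h4, h5⟩ := Finset.mem_Ioc.1 h1
          rw [Finset.mem_union]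
          by_cases h : d % 4 = 1
          · left
            have hDof : Dof d = d := by unfold Dof; rw [if_pos h]
            have hk := key Y hY0 hY1 hY2 hY3 d h4 h5 h2 h3 Y hY1 (by omega) (by omega) (by omega)
            rw [hA, Finset.mem_filter, Finset.mem_Ioc]
            exact ⟨by rw [hDof]; exact ⟨h4, h5⟩, hk⟩
          · right
            have hDof : Dof d = 4 * d := by unfold Dof; rw [if_neg h]
            have hk := key Y hY0 hY1 hY2 hY3 d h4 h5 h2 h3 (4 * Y) (by omega) (by omega)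
              (by omega) (by omega)
            rw [hB, Finset.mem_filter, Finset.mem_Ioc]
            exact ⟨by rw [hDof]; omega, hk⟩
        · intro d _ d' _ hdd
          unfold Dof at hdd
          split_ifs at hdd <;> omega
      have h1 : (S.card : ℝ) ≤ A.card + B.card := by
        exact_mod_cast hinj.trans (Finset.card_union_le _ _)
      have h4Y : (((4 * Y : ℕ) : ℝ)) ^ (1 - δ) ≤ 4 * (Y : ℝ) ^ (1 - δ) := by
        push_cast
        rw [Real.mul_rpow (by norm_num) hYr.le]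
        apply mul_le_mul_of_nonneg_right _ (by positivity)
        calc (4 : ℝ) ^ (1 - δ) ≤ (4 : ℝ) ^ (1 : ℝ) :=
              Real.rpow_le_rpow_of_exponent_le (by norm_num) (by linarith)
          _ = 4 := Real.rpow_one 4
      show ((S.card : ℕ) : ℝ) ≤ 5 * (Y : ℝ) ^ (1 - δ)
      linarith)
  obtain ⟨C, hC, hfin⟩ := hdy
  exact ⟨δ, C, hδ, hC, hfin⟩

end Pool.Agent.W24.NC
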