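import Mathlib

/-!
# Sizes of the parameters: arbitrary sets of small primes
-/

set_option autoImplicit false

namespace Pool.Agent.W24.NC

open Filter

/-- all the small primes are at most this bound -/
noncomputable def yy (a : ℝ) (X : ℕ) : ℕ := ⌊(2 * Real.log X) ^ a⌋₊

/-- the number of factors -/
noncomputable def kk (a κ : ℝ) (X : ℕ) : ℕ := ⌊κ * Real.log X / Real.log (yy a X)⌋₊

theorem ev_log (P : ℝ → Prop) (h : ∀ᶠ L : ℝ in atTop, P L) : ∀ᶠ X : ℕ in atTop, P (Real.log X) :=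
  (Real.tendsto_log_atTop.comp tendsto_natCast_atTop_atTop).eventually h

theorem ev_ll (c : ℝ) (hc : 0 < c) : ∀ᶠ L : ℝ in atTop, Real.log L ≤ c * L := by
  have h1 := Real.isLittleO_log_id_atTop.bound hc
  filter_upwards [h1, eventually_ge_atTop (1 : ℝ)] with L h2 h3
  have h4 : 0 ≤ Real.log L := Real.log_nonneg h3
  rw [Real.norm_of_nonneg h4, id, Real.norm_of_nonneg (by linarith)] at h2
  exact h2

theorem ev_l (c : ℝ) : ∀ᶠ L : ℝ in atTop, c ≤ Real.log L :=
  Real.tendsto_log_atTop.eventually (eventually_ge_atTop c)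

/-- the sizes -/
theorem params (a κ η A : ℝ) (ha : 1 < a) (hκ0 : 0 < κ) (hκ : κ ≤ 1) (hη : 0 < η) (hA : 1 ≤ A)
    (K0 : ℕ) : ∀ᶠ X : ℕ in atTop, 1 ≤ X ∧ 1 ≤ Real.log X ∧ 1 ≤ Real.log (Real.log X) ∧
      2 ≤ yy a X ∧ (yy a X : ℝ) ≤ (2 * Real.log X) ^ a ∧
      (yy a X : ℝ) ^ kk a κ X ≤ (X : ℝ) ^ κ ∧ A ^ kk a κ X ≤ (X : ℝ) ^ η ∧
      (X : ℝ) ^ (κ / a - η) ≤ (Real.log X) ^ kk a κ X ∧
      (Real.log X) ^ kk a κ X ≤ (X : ℝ) ^ (κ / a) ∧ K0 ≤ kk a κ X ∧
      (kk a κ X : ℝ) ≤ Real.log X / (a * Real.log (Real.log X)) := by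
  have ha0 : 0 < a := by linarith
  have e1 := ev_log _ (ev_l (max (max 1 (Real.log A / η)) (2 * Real.log 2 / η)))
  have e2 := ev_log _ (ev_ll (η / 2) (by positivity))
  have e3 := ev_log _ (ev_ll (κ / (2 * a * (K0 + 2))) (by positivity))
  have e4 := ev_log _ (eventually_ge_atTop (max 1 (2 * a * (K0 + 2) / κ)))
  filter_upwards [e1, e2, e3, e4, eventually_ge_atTop 1] with X h1 h2 h3 h4 hX1
  set L : ℝ := Real.log X with hL
  set l : ℝ := Real.log L with hl
  have hl1 : 1 ≤ l := (le_max_left _ _).trans ((le_max_left _ _).trans h1)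
  have hlA : Real.log A / η ≤ l := (le_max_right _ _).trans ((le_max_left _ _).trans h1)
  have hl2 : 2 * Real.log 2 / η ≤ l := (le_max_right _ _).trans h1
  have hL1 : 1 ≤ L := (le_max_left _ _).trans h4
  have hLK : 2 * a * (K0 + 2) / κ ≤ L := (le_max_right _ _).trans h4
  have hL0 : 0 < L := by linarith
  have hl0 : 0 < l := by linarith
  have hXr : (1 : ℝ) ≤ X := by exact_mod_cast hX1
  have hX0 : (0 : ℝ) < X := by linarith
  have hXL : (X : ℝ) = Real.exp L := by rw [hL, Real.exp_log hX0]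
  have hLl : L = Real.exp l := by rw [hl, Real.exp_log hL0]
  have hrp : ∀ t : ℝ, (X : ℝ) ^ t = Real.exp (t * L) := by
    intro t
    rw [Real.rpow_def_of_pos hX0, ← hL, mul_comm]
  set y := yy a X with hy
  set k := kk a κ X with hk
  have hlog2 : 0 < Real.log 2 := Real.log_pos (by norm_num)
  have hlog21 : Real.log 2 ≤ 1 := by have := Real.log_two_lt_d9; linarith
  have h2L : (0 : ℝ) ≤ (2 * L) ^ a := by positivity
  have hyle : (y : ℝ) ≤ (2 * L) ^ a := Nat.floor_le h2L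
  have hLa1 : 1 ≤ L ^ a := Real.one_le_rpow hL1 ha0.le
  have hyge : L ^ a ≤ y := by
    have h5 : (2 * L) ^ a - 1 < y := Nat.sub_one_lt_floor _
    have h6 : (2 * L) ^ a = 2 ^ a * L ^ a := Real.mul_rpow (by norm_num) hL0.le
    have h7 : (2 : ℝ) ≤ 2 ^ a := by
      calc (2 : ℝ) = 2 ^ (1 : ℝ) := (Real.rpow_one 2).symm
        _ ≤ 2 ^ a := Real.rpow_le_rpow_of_exponent_le (by norm_num) ha.le
    have h8 : 2 * L ^ a ≤ 2 ^ a * L ^ a := mul_le_mul_of_nonneg_right h7 (by positivity)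
    linarith
  have hLe : Real.exp 1 ≤ L := by rw [hLl]; exact Real.exp_le_exp.2 hl1
  have hLa2 : 2 ≤ L ^ a := by
    calc (2 : ℝ) ≤ Real.exp 1 := by have := Real.exp_one_gt_d9; linarith
      _ ≤ L := hLe
      _ = L ^ (1 : ℝ) := (Real.rpow_one L).symm
      _ ≤ L ^ a := Real.rpow_le_rpow_of_exponent_le hL1 ha.le
  have hy2 : (2 : ℝ) ≤ y := hLa2.trans hyge
  have hy0 : (0 : ℝ) < y := by linarith
  have hlogy1 : a * l ≤ Real.log y := by
    have h5 : Real.log (L ^ a) ≤ Real.log y := Real.log_le_log (by positivity) hyge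
    rwa [Real.log_rpow hL0] at h5
  have hlogy2 : Real.log y ≤ a * (Real.log 2 + l) := by
    have h5 : Real.log y ≤ Real.log ((2 * L) ^ a) := Real.log_le_log hy0 hyle
    rwa [Real.log_rpow (by linarith), Real.log_mul (by norm_num) hL0.ne'] at h5
  have hal : 0 < a * l := by positivity
  have hlogy0 : 0 < Real.log y := by linarith
  have hk0 : (0 : ℝ) ≤ κ * L / Real.log y := by positivity
  have hkle : (k : ℝ) ≤ κ * L / Real.log y := Nat.floor_le hk0
  have hkge : κ * L / Real.log y - 1 < k := Nat.sub_one_lt_floor _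
  have hk1 : (k : ℝ) * Real.log y ≤ κ * L := by rwa [le_div_iff₀ hlogy0] at hkle
  have hk2 : (k : ℝ) * (a * l) ≤ κ * L :=
    (mul_le_mul_of_nonneg_left hlogy1 (Nat.cast_nonneg _)).trans hk1
  have hk3 : (k : ℝ) ≤ L / (a * l) := by
    rw [le_div_iff₀ hal]
    nlinarith
  have hk4 : κ * L / (a * (Real.log 2 + l)) - 1 ≤ k := by
    have h5 : κ * L / (a * (Real.log 2 + l)) ≤ κ * L / Real.log y :=
      div_le_div_of_nonneg_left (by positivity) hlogy0 hlogy2
    linarith
  have hkpow : ∀ t : ℝ, 0 < t → t ^ k = Real.exp (k * Real.log t) := by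
    intro t ht
    rw [mul_comm, Real.exp_mul, Real.exp_log ht, Real.rpow_natCast]
  refine ⟨hX1, hL1, hl1, by exact_mod_cast hy2, hyle, ?_, ?_, ?_, ?_, ?_, hk3⟩
  · rw [hkpow _ hy0, hrp]
    exact Real.exp_le_exp.2 hk1
  · rw [hkpow _ (by linarith), hrp]
    apply Real.exp_le_exp.2
    have hlogA : 0 ≤ Real.log A := Real.log_nonneg hA
    have h5 : Real.log A ≤ η * l := by rwa [div_le_iff₀ hη, mul_comm] at hlA
    calc (k : ℝ) * Real.log A ≤ (L / (a * l)) * (η * l) := by gcongr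
      _ = η * (L / a) := by field_simp
      _ ≤ η * L := by
        apply mul_le_mul_of_nonneg_left _ hη.le
        rw [div_le_iff₀ ha0]
        nlinarith
  · rw [hkpow _ hL0, hrp]
    apply Real.exp_le_exp.2
    rw [← hl]
    have h5 : (κ * L / (a * (Real.log 2 + l)) - 1) * l ≤ k * l :=
      mul_le_mul_of_nonneg_right hk4 hl0.le
    refine le_trans ?_ h5
    have h6 : κ * L / (a * (Real.log 2 + l)) * l = κ / a * L - κ / a * L * Real.log 2 / (Real.log 2 + l) := by
      field_simp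
      ring
    have h7 : κ / a ≤ 1 := by
      rw [div_le_iff₀ ha0]
      linarith
    have h8 : κ / a * L * Real.log 2 / (Real.log 2 + l) ≤ η / 2 * L := by
      rw [div_le_iff₀ (by positivity)]
      have h9 : 2 * Real.log 2 ≤ η * l := by rwa [div_le_iff₀ hη, mul_comm l] at hl2
      have h10 : κ / a * L * Real.log 2 ≤ 1 * L * Real.log 2 := by gcongr
      have h11 : 0 < η * L * Real.log 2 := by positivity
      nlinarith
    rw [sub_mul, sub_mul, h6, one_mul]
    linarith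
  · rw [hkpow _ hL0, hrp]
    apply Real.exp_le_exp.2
    rw [← hl, div_mul_eq_mul_div, le_div_iff₀ ha0]
    calc (k : ℝ) * l * a = k * (a * l) := by ring
      _ ≤ _ := hk2
  · have h5 : (K0 : ℝ) + 1 ≤ κ * L / (a * (Real.log 2 + l)) := by
      rw [le_div_iff₀ (by positivity)]
      have h6 : (2 * a * (K0 + 2)) * l ≤ κ * L := by
        have h7 : l ≤ κ * L / (2 * a * (K0 + 2)) := by
          calc l ≤ κ / (2 * a * (K0 + 2)) * L := h3
            _ = _ := by ring
        rw [le_div_iff₀ (by positivity)] at h7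
        linarith
      have h7 : 2 * a * (K0 + 2) ≤ κ * L := by
        rw [div_le_iff₀ hκ0] at hLK
        linarith
      have hK0 : (0 : ℝ) ≤ K0 := Nat.cast_nonneg _
      have h8 : ((K0 : ℝ) + 1) * (a * (Real.log 2 + l)) ≤ (K0 + 2) * (a * (1 + l)) := by
        gcongr
        norm_num
      have h9 : ((K0 : ℝ) + 2) * (a * (1 + l)) = (2 * a * (K0 + 2)) / 2 + (2 * a * (K0 + 2)) * l / 2 := by
        ring
      linarith
    have h6 : (K0 : ℝ) ≤ k := by linarith
    exact_mod_cast h6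

/-- a lower bound for the number of sets of `k` primes -/
theorem choose_ratio (n N k : ℕ) (y : ℝ) (hn : (n : ℝ) ≤ y) (h2k : 2 * k ≤ N) :
    (n.choose k : ℝ) * ((N : ℝ) / 2) ^ k ≤ y ^ k * (N.choose k : ℝ) ∧
      ((N : ℝ) / 2) ^ k ≤ (k : ℝ) ^ k * (N.choose k : ℝ) := by
  have hk0 : (0 : ℝ) < (k.factorial : ℝ) := by exact_mod_cast Nat.factorial_pos k
  have h1 : (n.choose k : ℝ) ≤ y ^ k / k.factorial := by
    refine (Nat.choose_le_pow_div k n).trans ?_
    gcongr
  have h2 : ((N : ℝ) / 2) ^ k ≤ k.factorial * N.choose k := by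
    have h3 := Nat.pow_le_choose (α := ℝ) k N
    have h4 : ((N : ℝ) / 2) ^ k ≤ (((N + 1 - k : ℕ) : ℝ)) ^ k := by
      apply pow_le_pow_left₀ (by positivity)
      have h5 : N ≤ 2 * (N + 1 - k) := by omega
      have h6 : (N : ℝ) ≤ 2 * ((N + 1 - k : ℕ) : ℝ) := by exact_mod_cast h5
      linarith
    have h7 : (((N + 1 - k : ℕ) : ℝ)) ^ k / k.factorial ≤ N.choose k := h3
    rw [div_le_iff₀ hk0] at h7
    linarith
  constructor
  · calc (n.choose k : ℝ) * ((N : ℝ) / 2) ^ k ≤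
        (y ^ k / k.factorial) * (k.factorial * N.choose k) := by
          apply mul_le_mul h1 h2 (by positivity)
          exact le_trans (Nat.cast_nonneg _) h1
      _ = _ := by field_simp
  · refine h2.trans ?_
    apply mul_le_mul_of_nonneg_right _ (Nat.cast_nonneg _)
    exact_mod_cast Nat.factorial_le_pow k

end Pool.Agent.W24.NC
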